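import Pool.Agent.H76.NPC.Num

/-!
# Transfer of hardness
-/

namespace Pool.Agent.NPC

open Turing

/-- Hardness under reductions computed by programs (implies `NPHardP`). -/
def HardI {α : Type} [TEnc α] (P : α → Prop) : Prop :=
  ∀ L : Set (List Bool), InNP L → ∃ f : List Bool → α,
    PC (fun x : List Bool => x) (bits : α → List Bool) f ∧ ∀ x, x ∈ L ↔ P (f x)

/-- Hardness transfers along polynomial-time reductions. -/
theorem HardI.trans {α β : Type} [TEnc α] [TEnc β] {P : α → Prop} {Q : β → Prop} (hP : HardI P)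
    {f : α → β} (hf : Poly f) (h : ∀ a, P a ↔ Q (f a)) : HardI Q := by
  intro L hL
  obtain ⟨g, hg, hgL⟩ := hP L hL
  exact ⟨fun x => f (g x), PC.comp hf hg, fun x => (hgL x).trans (h _)⟩

/-- Internal hardness implies `NP`-hardness. -/
theorem HardI.toNPHardP {α : Type} [TEnc α] {P : α → Prop} (hP : HardI P) : NPHardP P := by
  intro L hL
  obtain ⟨f, hf, hfL⟩ := hP L hL
  refine ⟨fun x => bits (f x), PC.toPolyTime hf, fun x => ?_⟩
  rw [hfL x]
  constructor
  · intro h
    exact ⟨f x, rfl, h⟩
  · rintro ⟨a, ha, hPa⟩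
    rw [bits_injective ha] at hPa
    exact hPa

/-- Hardness of a promise problem under reductions computed by programs: all instances produced
satisfy the promise `Pr`. -/
def HardPr {α : Type} [TEnc α] (Pr P : α → Prop) : Prop :=
  ∀ L : Set (List Bool), InNP L → ∃ f : List Bool → α,
    PC (fun x : List Bool => x) (bits : α → List Bool) f ∧ (∀ x, Pr (f x)) ∧ ∀ x, x ∈ L ↔ P (f x)

theorem HardPr.trans {α β : Type} [TEnc α] [TEnc β] {Pr P : α → Prop} {Pr' Q : β → Prop}
    (hP : HardPr Pr P) {f : α → β} (hf : Poly f) (hpr : ∀ a, Pr a → Pr' (f a))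
    (h : ∀ a, Pr a → (P a ↔ Q (f a))) : HardPr Pr' Q := by
  intro L hL
  obtain ⟨g, hg, hgp, hgL⟩ := hP L hL
  exact ⟨fun x => f (g x), PC.comp hf hg, fun x => hpr _ (hgp x),
    fun x => (hgL x).trans (h _ (hgp x))⟩

theorem HardPr.toHardI {α : Type} [TEnc α] {Pr P : α → Prop} (hP : HardPr Pr P) : HardI P := by
  intro L hL
  obtain ⟨g, hg, _, hgL⟩ := hP L hL
  exact ⟨g, hg, hgL⟩

theorem HardI.toHardPr {α : Type} [TEnc α] {P : α → Prop} (hP : HardI P) :
    HardPr (fun _ => True) P := by
  intro L hL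
  obtain ⟨g, hg, hgL⟩ := hP L hL
  exact ⟨g, hg, fun _ => trivial, hgL⟩

/-- A polynomial-time function between encodable types is realised by a polynomial-time function
on bit strings. -/
theorem PC.toPolyTime_bits {α β : Type} [TEnc α] [TEnc β] {f : α → β} (hf : Poly f)
    (g : List Bool → α) (hg : PC (fun x : List Bool => x) (bits : α → List Bool) g) :
    PolyTime (fun x => bits (f (g x))) :=
  PC.toPolyTime (show PC (fun x : List Bool => x) (bits : β → List Bool) (fun x => f (g x)) from
    PC.comp hf hg)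

end Pool.Agent.NPC
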