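import Pool.Agent.H76.NPC.Defs

/-!
# The classes P and coNP
-/

namespace Pool.Agent.NPC

/-- The class `P` of languages decidable in polynomial time. -/
def InP (L : Set (List Bool)) : Prop :=
  ∃ V : List Bool → List Bool, PolyTime V ∧ ∀ x, x ∈ L ↔ V x = [true]

/-- The class `coNP`. -/
def InCoNP (L : Set (List Bool)) : Prop := InNP Lᶜ

/-- Hardness for `coNP` under polynomial-time many-one reductions. -/
def CoNPHard (L : Set (List Bool)) : Prop := ∀ L', InCoNP L' → Reduces L' L

/-- Membership in `P` of a decision problem about encodable data. -/
def InPP {α : Type} [TEnc α] (P : α → Prop) : Prop := InP (lang P)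

/-- Membership in `coNP` of a decision problem about encodable data. -/
def InCoNPP {α : Type} [TEnc α] (P : α → Prop) : Prop := InCoNP (lang P)

/-- `coNP`-hardness of a decision problem about encodable data. -/
def CoNPHardP {α : Type} [TEnc α] (P : α → Prop) : Prop := CoNPHard (lang P)

end Pool.Agent.NPC
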