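import Pool.Agent.H76.NPC.Defs

/-!
# A small structured stack language, compiled to Mathlib's stack machines `Turing.TM2`

`Cmd K` is a language of structured programs working on a family of binary stacks indexed by `K`.
`Run c s s' t` is its big-step semantics with a running time `t`.
The compiler `Cmd.toTM` produces a Mathlib `Turing.FinTM2`; the number of machine steps is exactly
the running time plus one.
-/

namespace Pool.Agent.NPC

open Turing

/-- Structured programs over binary stacks indexed by `K`. -/
inductive Cmd (K : Type) : Type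
  | skip : Cmd K
  | push (k : K) (b : Bool) : Cmd K
  | pop (k : K) : Cmd K
  | seq (c d : Cmd K) : Cmd K
  | cases (k : K) (c₀ cf ct : Cmd K) : Cmd K
  | loop (k : K) (c : Cmd K) : Cmd K

open Function (update)

/-- Big-step semantics with running time. -/
inductive Run {K : Type} [DecidableEq K] :
    Cmd K → (K → List Bool) → (K → List Bool) → ℕ → Prop
  | skip (s) : Run Cmd.skip s s 1
  | push (s k b) : Run (Cmd.push k b) s (update s k (b :: s k)) 1
  | pop (s k) : Run (Cmd.pop k) s (update s k (s k).tail) 1
  | seq {c d s s' s'' t t'} : Run c s s' t → Run d s' s'' t' → Run (Cmd.seq c d) s s'' (t + t')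
  | casesNil {k c₀ cf ct s s' t} : s k = [] → Run c₀ s s' t →
      Run (Cmd.cases k c₀ cf ct) s s' (t + 1)
  | casesFalse {k c₀ cf ct s s' t l} : s k = false :: l → Run cf s s' t →
      Run (Cmd.cases k c₀ cf ct) s s' (t + 1)
  | casesTrue {k c₀ cf ct s s' t l} : s k = true :: l → Run ct s s' t →
      Run (Cmd.cases k c₀ cf ct) s s' (t + 1)
  | loopNil {k c s} : s k = [] → Run (Cmd.loop k c) s s 1
  | loopCons {k c s s' s'' t t'} : s k ≠ [] → Run c s s' t → Run (Cmd.loop k c) s' s'' t' →
      Run (Cmd.loop k c) s s'' (t + t' + 1)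

namespace Cmd

variable {K : Type}

/-- The labels (program points) of a program. -/
def Lbl : Cmd K → Type
  | skip => Unit
  | push _ _ => Unit
  | pop _ => Unit
  | seq c d => c.Lbl ⊕ d.Lbl
  | cases _ c₀ cf ct => Option (c₀.Lbl ⊕ (cf.Lbl ⊕ ct.Lbl))
  | loop _ c => Option c.Lbl

/-- There are finitely many labels. -/
@[instance_reducible] def lblFintype : (c : Cmd K) → Fintype c.Lbl
  | skip => inferInstanceAs (Fintype Unit)
  | push _ _ => inferInstanceAs (Fintype Unit)
  | pop _ => inferInstanceAs (Fintype Unit)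
  | seq c d => @instFintypeSum c.Lbl d.Lbl c.lblFintype d.lblFintype
  | cases _ c₀ cf ct =>
    @instFintypeOption _ (@instFintypeSum c₀.Lbl (cf.Lbl ⊕ ct.Lbl) c₀.lblFintype
      (@instFintypeSum cf.Lbl ct.Lbl cf.lblFintype ct.lblFintype))
  | loop _ c => @instFintypeOption _ c.lblFintype

instance (c : Cmd K) : Fintype c.Lbl := c.lblFintype

/-- The entry label. -/
def entry : (c : Cmd K) → c.Lbl
  | skip => ()
  | push _ _ => ()
  | pop _ => ()
  | seq c _ => Sum.inl c.entry
  | cases _ _ _ _ => none
  | loop _ _ => none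

/-- The statement type of the target machines: the internal state is an `Option Bool`. -/
abbrev Stm (K : Type) (L : Type) : Type := TM2.Stmt (fun _ : K => Bool) L (Option Bool)

/-- The code of a program, for a given embedding of its labels and a given exit label. -/
def code {L : Type} : (c : Cmd K) → (c.Lbl → L) → L → c.Lbl → Stm K L
  | skip, _, exit, _ => TM2.Stmt.goto fun _ => exit
  | push k b, _, exit, _ => TM2.Stmt.push k (fun _ => b) (TM2.Stmt.goto fun _ => exit)
  | pop k, _, exit, _ => TM2.Stmt.pop k (fun v _ => v) (TM2.Stmt.goto fun _ => exit)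
  | seq c d, emb, exit, l =>
    Sum.rec (fun l => c.code (fun x => emb (Sum.inl x)) (emb (Sum.inr d.entry)) l)
      (fun l => d.code (fun x => emb (Sum.inr x)) exit l) l
  | cases k c₀ cf ct, emb, exit, l =>
    Option.rec (TM2.Stmt.peek k (fun _ a => a)
        (TM2.Stmt.goto fun v => match v with
          | none => emb (some (Sum.inl c₀.entry))
          | some false => emb (some (Sum.inr (Sum.inl cf.entry)))
          | some true => emb (some (Sum.inr (Sum.inr ct.entry)))))
      (fun l => Sum.rec (fun l => c₀.code (fun x => emb (some (Sum.inl x))) exit l)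
        (fun l => Sum.rec (fun l => cf.code (fun x => emb (some (Sum.inr (Sum.inl x)))) exit l)
          (fun l => ct.code (fun x => emb (some (Sum.inr (Sum.inr x)))) exit l) l) l) l
  | loop k c, emb, exit, l =>
    Option.rec (TM2.Stmt.peek k (fun _ a => a)
        (TM2.Stmt.goto fun v => match v with
          | none => exit
          | some _ => emb (some c.entry)))
      (fun l => c.code (fun x => emb (some x)) (emb none) l) l

end Cmd

section Correct

variable {K : Type} [DecidableEq K] {L : Type}

/-- `n` machine steps. -/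
def Steps (M : L → Cmd.Stm K L) (n : ℕ) (a b : TM2.Cfg (fun _ : K => Bool) L (Option Bool)) :
    Prop :=
  (flip bind (TM2.step M))^[n] (some a) = some b

theorem Steps.zero (M : L → Cmd.Stm K L) (a) : Steps M 0 a a := rfl

theorem Steps.trans {M : L → Cmd.Stm K L} {m n : ℕ} {a b c} (h₁ : Steps M m a b)
    (h₂ : Steps M n b c) : Steps M (m + n) a c := by
  unfold Steps at *
  rw [add_comm, Function.iterate_add_apply, h₁, h₂]

theorem Steps.one {M : L → Cmd.Stm K L} {a b} (h : TM2.step M a = some b) : Steps M 1 a b := by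
  unfold Steps
  simpa [flip] using h

theorem code_correct {c : Cmd K} {s s' : K → List Bool} {t : ℕ} (h : Run c s s' t) :
    ∀ (M : L → Cmd.Stm K L) (emb : c.Lbl → L) (exit : L),
      (∀ l, M (emb l) = c.code emb exit l) →
      ∀ v, ∃ v', Steps M t ⟨some (emb c.entry), v, s⟩ ⟨some exit, v', s'⟩ := by
  induction h with
  | skip s =>
    intro M emb exit hM v
    refine ⟨v, Steps.one ?_⟩
    simp [TM2.step, hM, Cmd.code]
  | push s k b =>
    intro M emb exit hM v
    refine ⟨v, Steps.one ?_⟩
    simp [TM2.step, hM, Cmd.code]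
  | pop s k =>
    intro M emb exit hM v
    refine ⟨v, Steps.one ?_⟩
    simp [TM2.step, hM, Cmd.code]
  | @seq c d s s' s'' t t' _ _ ih₁ ih₂ =>
    intro M emb exit hM v
    obtain ⟨v₁, h₁⟩ := ih₁ M (fun x => emb (Sum.inl x)) (emb (Sum.inr d.entry))
      (fun l => hM (Sum.inl l)) v
    obtain ⟨v₂, h₂⟩ := ih₂ M (fun x => emb (Sum.inr x)) exit (fun l => hM (Sum.inr l)) v₁
    exact ⟨v₂, h₁.trans h₂⟩
  | @casesNil k c₀ cf ct s s' t hk _ ih =>
    intro M emb exit hM v
    obtain ⟨v₁, h₁⟩ := ih M (fun x => emb (some (Sum.inl x))) exit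
      (fun l => hM (some (Sum.inl l))) none
    refine ⟨v₁, ?_⟩
    rw [add_comm]
    refine Steps.trans (Steps.one ?_) h₁
    have : M (emb none) = _ := hM none
    simp [TM2.step, Cmd.entry, this, Cmd.code, hk]
  | @casesFalse k c₀ cf ct s s' t l hk _ ih =>
    intro M emb exit hM v
    obtain ⟨v₁, h₁⟩ := ih M (fun x => emb (some (Sum.inr (Sum.inl x)))) exit
      (fun l => hM (some (Sum.inr (Sum.inl l)))) (some false)
    refine ⟨v₁, ?_⟩
    rw [add_comm]
    refine Steps.trans (Steps.one ?_) h₁
    have : M (emb none) = _ := hM none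
    simp [TM2.step, Cmd.entry, this, Cmd.code, hk]
  | @casesTrue k c₀ cf ct s s' t l hk _ ih =>
    intro M emb exit hM v
    obtain ⟨v₁, h₁⟩ := ih M (fun x => emb (some (Sum.inr (Sum.inr x)))) exit
      (fun l => hM (some (Sum.inr (Sum.inr l)))) (some true)
    refine ⟨v₁, ?_⟩
    rw [add_comm]
    refine Steps.trans (Steps.one ?_) h₁
    have : M (emb none) = _ := hM none
    simp [TM2.step, Cmd.entry, this, Cmd.code, hk]
  | @loopNil k c s hk =>
    intro M emb exit hM v
    refine ⟨none, Steps.one ?_⟩
    have : M (emb none) = _ := hM none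
    simp [TM2.step, Cmd.entry, this, Cmd.code, hk]
  | @loopCons k c s s' s'' t t' hk _ _ ih₁ ih₂ =>
    intro M emb exit hM v
    obtain ⟨b, l, hl⟩ := List.exists_cons_of_ne_nil hk
    obtain ⟨v₁, h₁⟩ := ih₁ M (fun x => emb (some x)) (emb none)
      (fun l => hM (some l)) (some b)
    obtain ⟨v₂, h₂⟩ := ih₂ M emb exit hM v₁
    refine ⟨v₂, ?_⟩
    have e : t + t' + 1 = 1 + (t + t') := by ring
    rw [e]
    refine Steps.trans (Steps.one ?_) (h₁.trans h₂)
    have : M (emb none) = _ := hM none
    simp [TM2.step, Cmd.entry, this, Cmd.code, hl]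

end Correct

/-- The machine of a program over finitely many stacks `Fin (n + 1)`, with stack `0` for input
and output. -/
def Cmd.toTM {n : ℕ} (c : Cmd (Fin (n + 1))) : FinTM2 where
  K := Fin (n + 1)
  k₀ := 0
  k₁ := 0
  Γ := fun _ => Bool
  Λ := Option c.Lbl
  main := some c.entry
  σ := Option Bool
  initialState := none
  Γk₀Fin := inferInstanceAs (Fintype Bool)
  m := fun l => Option.rec (TM2.Stmt.load (fun _ => none) TM2.Stmt.halt)
    (fun l => c.code some none l) l

/-- The stack family with `x` on stack `0` and all other stacks empty. -/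
def inp {K : Type} [DecidableEq K] [Zero K] (x : List Bool) : K → List Bool := update (fun _ => []) 0 x

theorem toTM_outputs {n : ℕ} {c : Cmd (Fin (n + 1))} {x y : List Bool} {t : ℕ}
    (h : Run c (inp x) (inp y) t) :
    Nonempty (TM2OutputsInTime c.toTM x (some y) (t + 1)) := by
  obtain ⟨v, hv⟩ := code_correct h (L := Option c.Lbl)
    (fun l => Option.rec (TM2.Stmt.load (fun _ => none) TM2.Stmt.halt)
      (fun l => c.code some none l) l) some none (fun l => rfl) none
  refine ⟨⟨⟨t + 1, ?_⟩, le_rfl⟩⟩
  have e1 : (initList c.toTM x) = ⟨some (some c.entry), none, @inp (Fin (n + 1)) _ _ x⟩ := by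
    unfold initList
    congr 1
    funext k
    change Fin (n + 1) at k
    by_cases hk : k = (0 : Fin (n + 1))
    · subst hk
      exact Eq.trans (dif_pos rfl) (by simp only [inp, Function.update_self]; rfl)
    · exact Eq.trans (dif_neg hk) (by simp [inp, hk]; rfl)
  have e2 : (haltList c.toTM y) = ⟨none, none, @inp (Fin (n + 1)) _ _ y⟩ := by
    unfold haltList
    congr 1
    funext k
    change Fin (n + 1) at k
    by_cases hk : k = (0 : Fin (n + 1))
    · subst hk
      exact Eq.trans (dif_pos rfl) (by simp only [inp, Function.update_self]; rfl)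
    · exact Eq.trans (dif_neg hk) (by simp [inp, hk]; rfl)
  have hv' : (flip bind c.toTM.step)^[t]
      (some (⟨some (some c.entry), none, @inp (Fin (n + 1)) _ _ x⟩ : c.toTM.Cfg)) =
      some ⟨some none, v, @inp (Fin (n + 1)) _ _ y⟩ := hv
  change (flip bind c.toTM.step)^[t + 1] (some (initList c.toTM x)) = some (haltList c.toTM y)
  rw [e1, e2, add_comm, Function.iterate_add_apply, hv']
  rfl

end Pool.Agent.NPC
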