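import Mathlib

/-!
# The Cook-Levin theorem, part 1: from stack machines in normal form to formulas

A machine in normal form has a finite set of states, finitely many stacks (here given by a memory
and a pointer for each stack) over one finite alphabet; each step consults one stack.
-/

namespace Pool.Agent.NPC.CL

open Function (update)

/-- Stack operations. -/
inductive Op (A : Type) : Type
  | keep : Op A
  | pop : Op A
  | push (a : A) : Op A

/-- Machines in normal form. -/
structure NM (Q K A : Type) where
  /-- the stack consulted in a given state -/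
  κ : Q → K
  /-- the new state and the operation on the consulted stack -/
  δ : Q → Option A → Q × Op A

/-- Configurations: state, pointers, memory contents. -/
structure Cf (Q K A : Type) where
  /-- state -/
  q : Q
  /-- pointers -/
  h : K → ℕ
  /-- memory -/
  m : K → ℕ → Option A

variable {Q K A : Type} [DecidableEq K]

/-- The symbol read on stack `k`. -/
def Cf.read (c : Cf Q K A) (k : K) : Option A :=
  match c.h k with
  | 0 => none
  | n + 1 => c.m k n

/-- The new pointer. -/
def newPtr (op : Op A) (r : Option A) (n : ℕ) : ℕ :=
  match op with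
  | Op.keep => n
  | Op.pop => match r with
    | none => n
    | some _ => n - 1
  | Op.push _ => n + 1

/-- The effect of an operation on the memory of the consulted stack. -/
def newMem (op : Op A) (n : ℕ) (m : ℕ → Option A) : ℕ → Option A :=
  match op with
  | Op.keep => m
  | Op.pop => m
  | Op.push a => update m n (some a)

/-- One step. -/
def NM.step (M : NM Q K A) (c : Cf Q K A) : Cf Q K A :=
  ⟨(M.δ c.q (c.read (M.κ c.q))).1,
    update c.h (M.κ c.q) (newPtr (M.δ c.q (c.read (M.κ c.q))).2 (c.read (M.κ c.q)) (c.h (M.κ c.q))),
    update c.m (M.κ c.q) (newMem (M.δ c.q (c.read (M.κ c.q))).2 (c.h (M.κ c.q)) (c.m (M.κ c.q)))⟩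

theorem newPtr_le (op : Op A) (r : Option A) (n : ℕ) : newPtr op r n ≤ n + 1 := by
  cases op <;> simp [newPtr]
  cases r <;> simp <;> omega

theorem step_ptr_le (M : NM Q K A) (c : Cf Q K A) (k : K) : (M.step c).h k ≤ c.h k + 1 := by
  by_cases hk : k = M.κ c.q
  · subst hk
    simpa [NM.step] using newPtr_le _ _ _
  · simp [NM.step, Function.update_of_ne hk]

theorem iterate_ptr_le (M : NM Q K A) (c : Cf Q K A) (k : K) (n : ℕ) :
    (M.step^[n] c).h k ≤ c.h k + n := by
  induction n with
  | zero => simp
  | succ n ih =>
    rw [Function.iterate_succ_apply']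
    have := step_ptr_le M (M.step^[n] c) k
    omega

/-- Propositional variables of the formula. -/
inductive Var (Q K A : Type) : Type
  | st (t : ℕ) (q : Q)
  | hp (t : ℕ) (k : K) (h : ℕ)
  | ce (t : ℕ) (k : K) (j : ℕ) (o : Option A)

/-- Truth of a formula in conjunctive normal form. -/
def Holds {V : Type} (τ : V → Bool) (φ : List (List (Bool × V))) : Prop :=
  ∀ c ∈ φ, ∃ l ∈ c, τ l.2 = l.1

theorem Holds.append_iff {V : Type} {τ : V → Bool} {φ ψ : List (List (Bool × V))} :
    Holds τ (φ ++ ψ) ↔ Holds τ φ ∧ Holds τ ψ := by
  simp [Holds, or_imp, forall_and]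

/-- The implication clause with premises `ps` and conclusion `c`. -/
def imp {V : Type} (ps : List V) (c : V) : List (Bool × V) := ps.map (fun v => (false, v)) ++ [(true, c)]

/-- The clause forbidding that all of `ps` hold. -/
def forb {V : Type} (ps : List V) : List (Bool × V) := ps.map (fun v => (false, v))

theorem holds_imp {V : Type} {τ : V → Bool} {ps : List V} {c : V} :
    (∃ l ∈ imp ps c, τ l.2 = l.1) ↔ ((∀ p ∈ ps, τ p = true) → τ c = true) := by
  constructor
  · rintro ⟨l, hl, hτ⟩ hps
    simp only [imp, List.mem_append, List.mem_map, List.mem_singleton] at hl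
    rcases hl with ⟨p, hp, rfl⟩ | rfl
    · have := hps p hp
      simp only at hτ
      rw [this] at hτ
      simp at hτ
    · exact hτ
  · intro h
    by_cases hps : ∀ p ∈ ps, τ p = true
    · exact ⟨(true, c), by simp [imp], h hps⟩
    · push Not at hps
      obtain ⟨p, hp, hpτ⟩ := hps
      exact ⟨(false, p), by simp [imp, hp], by simpa using hpτ⟩

theorem holds_forb {V : Type} {τ : V → Bool} {ps : List V} :
    (∃ l ∈ forb ps, τ l.2 = l.1) ↔ ¬ (∀ p ∈ ps, τ p = true) := by
  constructor
  · rintro ⟨l, hl, hτ⟩ hps
    simp only [forb, List.mem_map] at hl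
    obtain ⟨p, hp, rfl⟩ := hl
    have := hps p hp
    simp only at hτ
    rw [this] at hτ
    simp at hτ
  · intro h
    push Not at h
    obtain ⟨p, hp, hpτ⟩ := h
    exact ⟨(false, p), by simp [forb, hp], by simpa using hpτ⟩

open Var

/-- Data for the construction of the formula. -/
structure Tab (Q K A : Type) where
  /-- the machine -/
  M : NM Q K A
  /-- list of all states -/
  qs : List Q
  /-- list of all stacks -/
  ks : List K
  /-- list of all cell contents -/
  os : List (Option A)
  /-- initial state -/
  q₀ : Q
  /-- input stack -/
  k₀ : K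
  /-- output stack -/
  k₁ : K
  /-- the symbols for the two bits -/
  sym : Bool → A
  /-- accepting states -/
  acc : Q → Bool
  /-- accepting contents of the top of the output stack -/
  good : Option A → Bool

variable (D : Tab Q K A)

/-- Clauses for reading content `o` (top cell number `h`, or empty stack) in state `q`. -/
def rdClauses (t : ℕ) (q : Q) (h : ℕ) (ps : List (Var Q K A)) (o : Option A) :
    List (List (Bool × Var Q K A)) :=
  imp (st t q :: hp t (D.M.κ q) h :: ps) (st (t + 1) (D.M.δ q o).1) ::
  imp (st t q :: hp t (D.M.κ q) h :: ps) (hp (t + 1) (D.M.κ q) (newPtr (D.M.δ q o).2 o h)) ::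
  (match (D.M.δ q o).2 with
    | Op.push a => [imp (st t q :: hp t (D.M.κ q) h :: ps) (ce (t + 1) (D.M.κ q) h (some a))]
    | _ => [])

/-- Transition clauses for the consulted stack. -/
def trClauses (t h : ℕ) (q : Q) : List (List (Bool × Var Q K A)) :=
  match h with
  | 0 => rdClauses D t q 0 [] none
  | n + 1 => D.os.flatMap (fun o => rdClauses D t q (n + 1) [ce t (D.M.κ q) n o] o)

/-- Frame clauses for the pointers of the other stacks. -/
def fpClauses (t h : ℕ) (q : Q) : List (List (Bool × Var Q K A)) :=
  (D.ks.filter (fun k => decide (k ≠ D.M.κ q))).map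
    (fun k => imp [st t q, hp t k h] (hp (t + 1) k h))

/-- Frame clauses for the memory. -/
def fmClauses (t h : ℕ) : List (List (Bool × Var Q K A)) :=
  (List.range h).flatMap (fun j => D.ks.flatMap (fun k => D.os.map
    (fun o => imp [hp t k h, ce t k j o] (ce (t + 1) k j o))))

/-- Initial clauses. `P` is the bound for the certificate, `y` the fixed part of the input, from
top to bottom. -/
def inClauses (P : ℕ) (y : List Bool) : List (List (Bool × Var Q K A)) :=
  [(true, st 0 D.q₀)] ::
  (D.ks.map (fun k => [(true, hp 0 k (if k = D.k₀ then P + y.length else 0))]) ++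
  (y.reverse.zipIdx.map (fun p => [(true, ce 0 D.k₀ (P + p.2) (some (D.sym p.1)))]) ++
  ((List.range P).map (fun j => [(true, ce 0 D.k₀ j none), (true, ce 0 D.k₀ j (some (D.sym false))),
    (true, ce 0 D.k₀ j (some (D.sym true)))]) ++
  (List.range (P - 1)).map (fun j => imp [ce 0 D.k₀ (j + 1) none] (ce 0 D.k₀ j none)))))

/-- Final clauses at time `N`. -/
def fiClauses (N H : ℕ) : List (List (Bool × Var Q K A)) :=
  (D.qs.filter (fun q => !(D.acc q))).map (fun q => forb [st N q]) ++
  ([forb [hp N D.k₁ 0]] ++
  ((List.range H).flatMap (fun h => (D.os.filter (fun o => !(D.good o))).map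
    (fun o => forb [hp N D.k₁ (h + 1), ce N D.k₁ h o])) ++
  (List.range H).flatMap (fun h => (D.os.filter (fun o => o.isSome)).map
    (fun o => forb [hp N D.k₁ (h + 2), ce N D.k₁ h o]))))

/-- All transition clauses at time `t` for pointer value `h`. -/
def tClauses (t h : ℕ) : List (List (Bool × Var Q K A)) :=
  D.qs.flatMap (fun q => trClauses D t h q ++ fpClauses D t h q) ++ fmClauses D t h

/-- The formula. -/
def formula (P : ℕ) (y : List Bool) (N : ℕ) : List (List (Bool × Var Q K A)) :=
  inClauses D P y ++ ((List.range N).flatMap (fun t =>
    (List.range (P + y.length + N + 1)).flatMap (fun h => tClauses D t h)) ++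
    fiClauses D N (P + y.length + N + 1))

/-- The initial configuration with input `y ++ w` on the input stack, above `P - |w|` blanks. -/
def init (P : ℕ) (y w : List Bool) : Cf Q K A :=
  ⟨D.q₀, fun k => if k = D.k₀ then P + y.length else 0,
    fun k j => if k = D.k₀ then ((List.replicate (P - w.length) none ++
      ((y ++ w).map (fun b => some (D.sym b))).reverse)[j]?).join else none⟩

/-- Acceptance. -/
def Accepts (c : Cf Q K A) : Prop :=
  D.acc c.q = true ∧ ∃ n, c.h D.k₁ = n + 1 ∧ D.good (c.m D.k₁ n) = true ∧
    ∀ n', n = n' + 1 → c.m D.k₁ n' = none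

/-- The configuration at time `t`. -/
def run (P : ℕ) (y w : List Bool) (t : ℕ) : Cf Q K A := D.M.step^[t] (init D P y w)

theorem run_succ (P : ℕ) (y w : List Bool) (t : ℕ) :
    run D P y w (t + 1) = D.M.step (run D P y w t) := by
  unfold run
  rw [Function.iterate_succ_apply']

section Sound

open Classical in
/-- The assignment given by a run. -/
noncomputable def asg (R : ℕ → Cf Q K A) : Var Q K A → Bool
  | st t q => decide ((R t).q = q)
  | hp t k h => decide ((R t).h k = h)
  | ce t k j o => decide ((R t).m k j = o)

@[simp] theorem asg_st (R : ℕ → Cf Q K A) (t q) : asg R (st t q) = true ↔ (R t).q = q := by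
  simp [asg]
@[simp] theorem asg_hp (R : ℕ → Cf Q K A) (t k h) : asg R (hp t k h) = true ↔ (R t).h k = h := by
  simp [asg]
@[simp] theorem asg_ce (R : ℕ → Cf Q K A) (t k j o) :
    asg R (ce t k j o) = true ↔ (R t).m k j = o := by
  simp [asg]

theorem holds_singleton {V : Type} {τ : V → Bool} {v : V} (h : τ v = true) :
    ∃ l ∈ [(true, v)], τ l.2 = l.1 := ⟨(true, v), by simp, h⟩

theorem rdClauses_sound (R : ℕ → Cf Q K A) (t : ℕ) (hR : R (t + 1) = D.M.step (R t)) (q : Q)
    (h : ℕ) (ps : List (Var Q K A)) (o : Option A)
    (ho : (R t).q = q → (R t).h (D.M.κ q) = h → (∀ p ∈ ps, asg R p = true) →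
      (R t).read (D.M.κ q) = o) : Holds (asg R) (rdClauses D t q h ps o) := by
  have key : (∀ p ∈ (st t q :: hp t (D.M.κ q) h :: ps), asg R p = true) →
      (R t).q = q ∧ (R t).h (D.M.κ q) = h ∧ (R t).read (D.M.κ q) = o := by
    intro hp
    have h1 := hp _ (List.mem_cons_self)
    have h2 := hp _ (List.mem_cons_of_mem _ (List.mem_cons_self))
    rw [asg_st] at h1
    rw [asg_hp] at h2
    exact ⟨h1, h2, ho h1 h2 (fun p hp' => hp p (by simp [hp']))⟩
  intro c hc
  rw [rdClauses, List.mem_cons, List.mem_cons] at hc
  rcases hc with rfl | rfl | hc
  · rw [holds_imp]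
    intro h0
    obtain ⟨h1, h2, h3⟩ := key h0
    rw [asg_st, hR, NM.step, h1, h3]
  · rw [holds_imp]
    intro h0
    obtain ⟨h1, h2, h3⟩ := key h0
    rw [asg_hp, hR, NM.step, h1]
    simp only [Function.update_self]
    rw [h3, h2]
  · cases hop : (D.M.δ q o).2 with
    | keep => rw [hop] at hc; simp at hc
    | pop => rw [hop] at hc; simp at hc
    | push a =>
      rw [hop] at hc
      simp only [List.mem_singleton] at hc
      subst hc
      rw [holds_imp]
      intro h0
      obtain ⟨h1, h2, h3⟩ := key h0
      rw [asg_ce, hR, NM.step, h1]
      simp only [Function.update_self]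
      rw [h3, h2, hop]
      simp [newMem]

theorem step_mem_below (M : NM Q K A) (c : Cf Q K A) (k : K) (j : ℕ) (hj : j < c.h k) :
    (M.step c).m k j = c.m k j := by
  by_cases hk : k = M.κ c.q
  · subst hk
    simp only [NM.step, Function.update_self]
    cases (M.δ c.q (c.read (M.κ c.q))).2 with
    | keep => rfl
    | pop => rfl
    | push a => simp only [newMem]; rw [Function.update_of_ne (by omega)]
  · simp [NM.step, Function.update_of_ne hk]

theorem tClauses_sound (R : ℕ → Cf Q K A) (t h : ℕ) (hR : R (t + 1) = D.M.step (R t)) :
    Holds (asg R) (tClauses D t h) := by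
  rw [tClauses, Holds.append_iff]
  constructor
  · intro c hc
    rw [List.mem_flatMap] at hc
    obtain ⟨q, _, hc⟩ := hc
    rw [List.mem_append] at hc
    rcases hc with hc | hc
    · cases h with
      | zero =>
        refine rdClauses_sound D R t hR q 0 [] none ?_ c hc
        intro h1 h2 _
        rw [Cf.read, h2]
      | succ n =>
        rw [trClauses, List.mem_flatMap] at hc
        obtain ⟨o, _, hc⟩ := hc
        refine rdClauses_sound D R t hR q (n + 1) _ o ?_ c hc
        intro h1 h2 h3
        have := h3 _ (List.mem_singleton_self _)
        rw [asg_ce] at this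
        rw [Cf.read, h2]
        exact this
    · rw [fpClauses, List.mem_map] at hc
      obtain ⟨k, hk, rfl⟩ := hc
      rw [List.mem_filter] at hk
      have hk := of_decide_eq_true hk.2
      rw [holds_imp]
      intro h0
      have h1 := h0 (st t q) (by simp)
      have h2 := h0 (hp t k h) (by simp)
      rw [asg_st] at h1
      rw [asg_hp] at h2
      rw [asg_hp, hR, NM.step]
      simp only
      rw [Function.update_of_ne (by rw [h1]; exact hk), h2]
  · intro c hc
    rw [fmClauses, List.mem_flatMap] at hc
    obtain ⟨j, hj, hc⟩ := hc
    rw [List.mem_flatMap] at hc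
    obtain ⟨k, _, hc⟩ := hc
    rw [List.mem_map] at hc
    obtain ⟨o, _, rfl⟩ := hc
    rw [List.mem_range] at hj
    rw [holds_imp]
    intro h0
    have h1 := h0 (hp t k h) (by simp)
    have h2 := h0 (ce t k j o) (by simp)
    rw [asg_hp] at h1
    rw [asg_ce] at h2
    rw [asg_ce, hR, step_mem_below _ _ _ _ (by omega), h2]

theorem formula_sound (P : ℕ) (y w : List Bool) (N : ℕ) (hw : w.length ≤ P)
    (hacc : Accepts D (run D P y w N)) : Holds (asg (run D P y w)) (formula D P y N) := by
  rw [formula, Holds.append_iff, Holds.append_iff]
  refine ⟨?_, ?_, ?_⟩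
  · intro c hc
    rw [inClauses, List.mem_cons, List.mem_append, List.mem_append, List.mem_append] at hc
    rcases hc with rfl | hc | hc | hc | hc
    · exact holds_singleton (by rw [asg_st]; rfl)
    · rw [List.mem_map] at hc
      obtain ⟨k, _, rfl⟩ := hc
      exact holds_singleton (by rw [asg_hp]; rfl)
    · rw [List.mem_map] at hc
      obtain ⟨⟨b, i⟩, hbi, rfl⟩ := hc
      refine holds_singleton ?_
      rw [asg_ce]
      have hbi' := List.mem_zipIdx_iff_getElem?.1 hbi
      simp only at hbi' ⊢
      change (init D P y w).m D.k₀ (P + i) = _
      simp only [init, if_true]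
      rw [List.map_append, List.reverse_append, ← List.append_assoc]
      rw [List.getElem?_append_right (by simp; omega)]
      have : P + i - (List.replicate (P - w.length) (none : Option A) ++
          (List.map (fun b => some (D.sym b)) w).reverse).length = i := by
        simp; omega
      rw [this, ← List.map_reverse, List.getElem?_map, hbi']
      rfl
    · rw [List.mem_map] at hc
      obtain ⟨j, hj, rfl⟩ := hc
      rw [List.mem_range] at hj
      have : (init D P y w).m D.k₀ j = none ∨ ∃ b, (init D P y w).m D.k₀ j = some (D.sym b) := by
        simp only [init, if_true]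
        rw [List.map_append, List.reverse_append]
        by_cases hj' : j < P - w.length
        · left
          rw [List.getElem?_append_left (by simpa using hj')]
          simp [List.getElem?_replicate, hj']
        · right
          rw [List.getElem?_append_right (by simp; omega)]
          rw [List.getElem?_append_left (by simp; omega)]
          rw [← List.map_reverse, List.getElem?_map, List.length_replicate]
          have hlt : j - (P - w.length) < w.reverse.length := by simp; omega
          rw [List.getElem?_eq_getElem hlt]
          exact ⟨_, rfl⟩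
      rcases this with h0 | ⟨b, hb⟩
      · exact ⟨(true, ce 0 D.k₀ j none), by simp, by rw [asg_ce]; exact h0⟩
      · cases b
        · exact ⟨(true, ce 0 D.k₀ j (some (D.sym false))), by simp, by rw [asg_ce]; exact hb⟩
        · exact ⟨(true, ce 0 D.k₀ j (some (D.sym true))), by simp, by rw [asg_ce]; exact hb⟩
    · rw [List.mem_map] at hc
      obtain ⟨j, hj, rfl⟩ := hc
      rw [List.mem_range] at hj
      rw [holds_imp]
      intro h0
      have h1 := h0 _ (List.mem_singleton_self _)
      rw [asg_ce] at h1 ⊢
      change (init D P y w).m D.k₀ (j + 1) = none at h1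
      change (init D P y w).m D.k₀ j = none
      simp only [init, if_true] at h1 ⊢
      by_cases hj' : j + 1 < P - w.length
      · rw [List.getElem?_append_left (by simp; omega)]
        simp only [List.getElem?_replicate]
        split_ifs <;> rfl
      · exfalso
        rw [List.map_append, List.reverse_append] at h1
        rw [List.getElem?_append_right (by simp; omega)] at h1
        rw [List.getElem?_append_left (by simp; omega)] at h1
        rw [← List.map_reverse, List.getElem?_map, List.length_replicate] at h1
        have hlt : j + 1 - (P - w.length) < w.reverse.length := by simp; omega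
        rw [List.getElem?_eq_getElem hlt] at h1
        simp at h1
  · intro c hc
    rw [List.mem_flatMap] at hc
    obtain ⟨t, _, hc⟩ := hc
    rw [List.mem_flatMap] at hc
    obtain ⟨h, _, hc⟩ := hc
    exact tClauses_sound D _ t h (run_succ D P y w t) c hc
  · obtain ⟨h1, n, h2, h3, h4⟩ := hacc
    intro c hc
    rw [fiClauses, List.mem_append, List.mem_append, List.mem_append] at hc
    rcases hc with hc | hc | hc | hc
    · rw [List.mem_map] at hc
      obtain ⟨q, hq, rfl⟩ := hc
      rw [List.mem_filter] at hq
      rw [holds_forb]
      intro h0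
      have := h0 _ (List.mem_singleton_self _)
      rw [asg_st] at this
      rw [this] at h1
      simp [h1] at hq
    · rw [List.mem_singleton] at hc
      subst hc
      rw [holds_forb]
      intro h0
      have := h0 _ (List.mem_singleton_self _)
      rw [asg_hp] at this
      omega
    · rw [List.mem_flatMap] at hc
      obtain ⟨h, _, hc⟩ := hc
      rw [List.mem_map] at hc
      obtain ⟨o, ho, rfl⟩ := hc
      rw [List.mem_filter] at ho
      rw [holds_forb]
      intro h0
      have e1 := h0 (hp N D.k₁ (h + 1)) (by simp)
      have e2 := h0 (ce N D.k₁ h o) (by simp)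
      rw [asg_hp] at e1
      rw [asg_ce] at e2
      have : h = n := by omega
      subst this
      rw [e2] at h3
      simp [h3] at ho
    · rw [List.mem_flatMap] at hc
      obtain ⟨h, _, hc⟩ := hc
      rw [List.mem_map] at hc
      obtain ⟨o, ho, rfl⟩ := hc
      rw [List.mem_filter] at ho
      rw [holds_forb]
      intro h0
      have e1 := h0 (hp N D.k₁ (h + 2)) (by simp)
      have e2 := h0 (ce N D.k₁ h o) (by simp)
      rw [asg_hp] at e1
      rw [asg_ce] at e2
      have := h4 h (by omega)
      rw [e2] at this
      subst this
      simp at ho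

end Sound

section Complete

variable {D} {P N : ℕ} {y : List Bool} {τ : Var Q K A → Bool}

theorem init_extract (hτ : Holds τ (inClauses D P y)) :
    ∃ w : List Bool, w.length ≤ P ∧ ∀ j < P + y.length, τ (ce 0 D.k₀ j ((init D P y w).m D.k₀ j)) = true := by
  rw [inClauses, ← List.singleton_append, Holds.append_iff, Holds.append_iff, Holds.append_iff,
    Holds.append_iff] at hτ
  obtain ⟨_, _, h3, h4, h5⟩ := hτ
  have h4' : ∀ j < P, τ (ce 0 D.k₀ j none) = true ∨ τ (ce 0 D.k₀ j (some (D.sym false))) = true ∨
      τ (ce 0 D.k₀ j (some (D.sym true))) = true := by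
    intro j hj
    obtain ⟨l, hl, hl'⟩ := h4 _ (List.mem_map.2 ⟨j, List.mem_range.2 hj, rfl⟩)
    simp only [List.mem_cons, List.not_mem_nil, or_false] at hl
    rcases hl with rfl | rfl | rfl
    · exact Or.inl hl'
    · exact Or.inr (Or.inl hl')
    · exact Or.inr (Or.inr hl')
  have h5' : ∀ j, j + 1 < P → τ (ce 0 D.k₀ (j + 1) none) = true → τ (ce 0 D.k₀ j none) = true := by
    intro j hj hh
    have := h5 _ (List.mem_map.2 ⟨j, List.mem_range.2 (by omega), rfl⟩)
    rw [holds_imp] at this
    exact this (by simpa using hh)
  have h5'' : ∀ d j, j + d < P → τ (ce 0 D.k₀ (j + d) none) = true →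
      τ (ce 0 D.k₀ j none) = true := by
    intro d
    induction d with
    | zero => intro j _ h; simpa using h
    | succ d ih =>
      intro j hj hh
      exact ih j (by omega) (h5' (j + d) (by omega) (by rw [← add_assoc] at hh; exact hh))
  -- the number of blanks
  obtain ⟨b, hb, hb1, hb2⟩ : ∃ b ≤ P, (∀ j < b, τ (ce 0 D.k₀ j none) = true) ∧
      (∀ j, b ≤ j → j < P → τ (ce 0 D.k₀ j none) = false) := by
    classical
    by_cases hex : ∃ j, j < P ∧ τ (ce 0 D.k₀ j none) = false
    · refine ⟨Nat.find hex, (Nat.find_spec hex).1.le, ?_, ?_⟩
      · intro j hj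
        have := Nat.find_min hex hj
        have hjP : j < P := lt_trans hj (Nat.find_spec hex).1
        simpa [hjP] using this
      · intro j hj hjP
        have h0 := (Nat.find_spec hex).2
        by_contra hne
        have hne : τ (ce 0 D.k₀ j none) = true := by simpa using hne
        have := h5'' (j - Nat.find hex) (Nat.find hex) (by omega)
          (by rwa [show Nat.find hex + (j - Nat.find hex) = j by omega])
        rw [this] at h0
        simp at h0
    · refine ⟨P, le_rfl, ?_, ?_⟩
      · intro j hj
        by_contra hne
        exact hex ⟨j, hj, by simpa using hne⟩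
      · intro j h1 h2
        omega
  refine ⟨((List.range (P - b)).map (fun i => τ (ce 0 D.k₀ (b + i)
    (some (D.sym true))))).reverse, by simp, ?_⟩
  intro j hj
  simp only [init, if_true]
  rw [List.map_append, List.reverse_append, List.map_reverse, List.reverse_reverse]
  simp only [List.length_reverse, List.length_map, List.length_range]
  rw [show P - (P - b) = b by omega]
  by_cases hj1 : j < b
  · rw [List.getElem?_append_left (by simpa using hj1)]
    simp only [List.getElem?_replicate, hj1, if_true, Option.join_some]
    exact hb1 j hj1
  · rw [List.getElem?_append_right (by simpa using hj1), List.length_replicate]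
    by_cases hj2 : j < P
    · rw [List.getElem?_append_left (by simp; omega)]
      rw [List.getElem?_map, List.getElem?_map, List.getElem?_range (by omega)]
      simp only [Option.map_some, Option.join_some]
      rw [show b + (j - b) = j by omega]
      have e1 := hb2 j (by omega) hj2
      rcases h4' j hj2 with h | h | h
      · rw [h] at e1; simp at e1
      · cases hc : τ (ce 0 D.k₀ j (some (D.sym true)))
        · exact h
        · exact hc
      · rw [h]; exact h
    · rw [List.getElem?_append_right (by simp; omega)]
      simp only [List.length_map, List.length_range]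
      rw [show j - b - (P - b) = j - P by omega]
      have hlt : j - P < y.reverse.length := by simp; omega
      rw [← List.map_reverse, List.getElem?_map, List.getElem?_eq_getElem hlt]
      simp only [Option.map_some, Option.join_some]
      obtain ⟨l, hl, hl'⟩ := h3 _ (List.mem_map.2 ⟨(y.reverse[j - P], j - P),
        List.mem_zipIdx_iff_getElem?.2 (by rw [List.getElem?_eq_getElem hlt]), rfl⟩)
      simp only [List.mem_singleton] at hl
      subst hl
      simp only at hl'
      rw [show P + (j - P) = j by omega] at hl'
      exact hl'

theorem rdClauses_complete {t : ℕ} {q : Q} {h : ℕ} {ps : List (Var Q K A)} {o : Option A}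
    (hτ : Holds τ (rdClauses D t q h ps o)) (h1 : τ (st t q) = true)
    (h2 : τ (hp t (D.M.κ q) h) = true) (h3 : ∀ p ∈ ps, τ p = true) :
    τ (st (t + 1) (D.M.δ q o).1) = true ∧
    τ (hp (t + 1) (D.M.κ q) (newPtr (D.M.δ q o).2 o h)) = true ∧
    ∀ a, (D.M.δ q o).2 = Op.push a → τ (ce (t + 1) (D.M.κ q) h (some a)) = true := by
  have key : ∀ p ∈ (st t q :: hp t (D.M.κ q) h :: ps), τ p = true := by
    intro p hp
    simp only [List.mem_cons] at hp
    rcases hp with rfl | rfl | hp
    · exact h1
    · exact h2
    · exact h3 p hp
  refine ⟨?_, ?_, ?_⟩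
  · exact holds_imp.1 (hτ _ (by rw [rdClauses]; exact List.mem_cons_self)) key
  · exact holds_imp.1 (hτ _ (by
      rw [rdClauses]; exact List.mem_cons_of_mem _ List.mem_cons_self)) key
  · intro a ha
    refine holds_imp.1 (hτ _ (by
      rw [rdClauses]
      refine List.mem_cons_of_mem _ (List.mem_cons_of_mem _ ?_)
      rw [ha]
      exact List.mem_singleton_self _)) key

theorem formula_complete (hqs : ∀ q, q ∈ D.qs) (hks : ∀ k, k ∈ D.ks) (hos : ∀ o, o ∈ D.os)
    (hτ : Holds τ (formula D P y N)) :
    ∃ w : List Bool, w.length ≤ P ∧ Accepts D (run D P y w N) := by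
  rw [formula, Holds.append_iff, Holds.append_iff] at hτ
  obtain ⟨hin, htr, hfi⟩ := hτ
  obtain ⟨w, hw, hcell⟩ := init_extract hin
  refine ⟨w, hw, ?_⟩
  have hbound : ∀ t k, (run D P y w t).h k ≤ P + y.length + t := by
    intro t k
    have h1 := iterate_ptr_le D.M (init D P y w) k t
    have h2 : (init D P y w).h k ≤ P + y.length := by
      simp only [init]
      split_ifs <;> omega
    unfold run
    omega
  have htr' : ∀ t < N, ∀ h ≤ P + y.length + N, Holds τ (tClauses D t h) := by
    intro t ht h hh c hc
    apply htr
    rw [List.mem_flatMap]
    refine ⟨t, List.mem_range.2 ht, ?_⟩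
    rw [List.mem_flatMap]
    exact ⟨h, List.mem_range.2 (by omega), hc⟩
  have main : ∀ t ≤ N, τ (st t (run D P y w t).q) = true ∧
      (∀ k, τ (hp t k ((run D P y w t).h k)) = true) ∧
      (∀ k, ∀ j < (run D P y w t).h k, τ (ce t k j ((run D P y w t).m k j)) = true) := by
    intro t
    induction t with
    | zero =>
      intro _
      rw [inClauses, ← List.singleton_append, Holds.append_iff, Holds.append_iff] at hin
      obtain ⟨i1, i2, _⟩ := hin
      refine ⟨?_, ?_, ?_⟩
      · obtain ⟨l, hl, hl'⟩ := i1 _ (List.mem_singleton_self _)
        simp only [List.mem_singleton] at hl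
        subst hl
        exact hl'
      · intro k
        obtain ⟨l, hl, hl'⟩ := i2 _ (List.mem_map.2 ⟨k, hks k, rfl⟩)
        simp only [List.mem_singleton] at hl
        subst hl
        exact hl'
      · intro k j hj
        by_cases hk : k = D.k₀
        · subst hk
          apply hcell
          simpa [run, init] using hj
        · simp [run, init, hk] at hj
    | succ t ih =>
      intro ht
      obtain ⟨s1, s2, s3⟩ := ih (by omega)
      set c := run D P y w t with hc
      rw [run_succ, ← hc]
      have hT := htr' t (by omega)
      -- the consulted stack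
      have hcons : τ (st (t + 1) (D.M.δ c.q (c.read (D.M.κ c.q))).1) = true ∧
          τ (hp (t + 1) (D.M.κ c.q) (newPtr (D.M.δ c.q (c.read (D.M.κ c.q))).2
            (c.read (D.M.κ c.q)) (c.h (D.M.κ c.q)))) = true ∧
          ∀ a, (D.M.δ c.q (c.read (D.M.κ c.q))).2 = Op.push a →
            τ (ce (t + 1) (D.M.κ c.q) (c.h (D.M.κ c.q)) (some a)) = true := by
        have hb := hbound t (D.M.κ c.q)
        rw [← hc] at hb
        have hT' := hT (c.h (D.M.κ c.q)) (by omega)
        rw [tClauses, Holds.append_iff] at hT'
        have hT'' : Holds τ (trClauses D t (c.h (D.M.κ c.q)) c.q) := by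
          intro cl hcl
          apply hT'.1
          rw [List.mem_flatMap]
          exact ⟨c.q, hqs _, List.mem_append_left _ hcl⟩
        cases hh : c.h (D.M.κ c.q) with
        | zero =>
          have hr : c.read (D.M.κ c.q) = none := by rw [Cf.read, hh]
          rw [hh] at hT''
          rw [hr]
          exact rdClauses_complete hT'' s1 (by rw [← hh]; exact s2 _) (by simp)
        | succ n =>
          have hr : c.read (D.M.κ c.q) = c.m (D.M.κ c.q) n := by rw [Cf.read, hh]
          rw [hh] at hT''
          rw [hr]
          have : Holds τ (rdClauses D t c.q (n + 1) [ce t (D.M.κ c.q) n (c.m (D.M.κ c.q) n)]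
              (c.m (D.M.κ c.q) n)) := by
            intro cl hcl
            apply hT''
            rw [trClauses, List.mem_flatMap]
            exact ⟨_, hos _, hcl⟩
          exact rdClauses_complete this s1 (by rw [← hh]; exact s2 _) (by
            intro p hp
            rw [List.mem_singleton] at hp
            subst hp
            exact s3 _ _ (by omega))
      refine ⟨hcons.1, ?_, ?_⟩
      · intro k
        by_cases hk : k = D.M.κ c.q
        · subst hk
          simp only [NM.step, Function.update_self]
          exact hcons.2.1
        · simp only [NM.step, Function.update_of_ne hk]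
          have hb := hbound t k
          rw [← hc] at hb
          have hT' := hT (c.h k) (by omega)
          rw [tClauses, Holds.append_iff] at hT'
          have := hT'.1 (imp [st t c.q, hp t k (c.h k)] (hp (t + 1) k (c.h k))) (by
            rw [List.mem_flatMap]
            refine ⟨c.q, hqs _, List.mem_append_right _ ?_⟩
            rw [fpClauses, List.mem_map]
            exact ⟨k, List.mem_filter.2 ⟨hks k, decide_eq_true hk⟩, rfl⟩)
          rw [holds_imp] at this
          apply this
          intro p hp
          simp only [List.mem_cons, List.not_mem_nil, or_false] at hp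
          rcases hp with rfl | rfl
          · exact s1
          · exact s2 k
      · intro k j hj
        have frame : ∀ j < c.h k, τ (ce (t + 1) k j ((D.M.step c).m k j)) = true := by
          intro j hj
          rw [step_mem_below _ _ _ _ hj]
          have hb := hbound t k
          rw [← hc] at hb
          have hT' := hT (c.h k) (by omega)
          rw [tClauses, Holds.append_iff] at hT'
          have := hT'.2 (imp [hp t k (c.h k), ce t k j (c.m k j)] (ce (t + 1) k j (c.m k j))) (by
            rw [fmClauses, List.mem_flatMap]
            refine ⟨j, List.mem_range.2 hj, ?_⟩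
            rw [List.mem_flatMap]
            refine ⟨k, hks k, ?_⟩
            rw [List.mem_map]
            exact ⟨_, hos _, rfl⟩)
          rw [holds_imp] at this
          apply this
          intro p hp
          simp only [List.mem_cons, List.not_mem_nil, or_false] at hp
          rcases hp with rfl | rfl
          · exact s2 k
          · exact s3 k j hj
        by_cases hjk : j < c.h k
        · exact frame j hjk
        · have h1 := step_ptr_le D.M c k
          have hjeq : j = c.h k := by omega
          by_cases hk : k = D.M.κ c.q
          · subst hk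
            cases hop : (D.M.δ c.q (c.read (D.M.κ c.q))).2 with
            | keep =>
              simp only [NM.step, Function.update_self, hop, newPtr] at hj
              omega
            | pop =>
              simp only [NM.step, Function.update_self, hop, newPtr] at hj
              cases hr : c.read (D.M.κ c.q) with
              | none => simp only [hr] at hj; omega
              | some a => simp only [hr] at hj; omega
            | push a =>
              have := hcons.2.2 a hop
              simp only [NM.step, Function.update_self, hop, newMem]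
              rw [hjeq, Function.update_self]
              exact this
          · simp only [NM.step, Function.update_of_ne hk] at hj
            omega
  obtain ⟨m1, m2, m3⟩ := main N le_rfl
  set c := run D P y w N with hc
  rw [fiClauses, Holds.append_iff, Holds.append_iff, Holds.append_iff] at hfi
  obtain ⟨f1, f2, f3, f4⟩ := hfi
  have hb := hbound N D.k₁
  rw [← hc] at hb
  refine ⟨?_, ?_⟩
  · by_contra hne
    have hne : D.acc c.q = false := by simpa using hne
    have := f1 _ (List.mem_map.2 ⟨c.q, List.mem_filter.2 ⟨hqs _, by simp [hne]⟩, rfl⟩)
    rw [holds_forb] at this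
    exact this (by simpa using m1)
  · cases hh : c.h D.k₁ with
    | zero =>
      exfalso
      have := f2 _ (List.mem_singleton_self _)
      rw [holds_forb] at this
      apply this
      intro p hp
      rw [List.mem_singleton] at hp
      subst hp
      rw [← hh]
      exact m2 _
    | succ n =>
      refine ⟨n, rfl, ?_, ?_⟩
      · by_contra hne
        have hne : D.good (c.m D.k₁ n) = false := by simpa using hne
        have := f3 (forb [hp N D.k₁ (n + 1), ce N D.k₁ n (c.m D.k₁ n)]) (by
          rw [List.mem_flatMap]
          refine ⟨n, List.mem_range.2 (by omega), ?_⟩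
          rw [List.mem_map]
          exact ⟨_, List.mem_filter.2 ⟨hos _, by simp [hne]⟩, rfl⟩)
        rw [holds_forb] at this
        apply this
        intro p hp
        simp only [List.mem_cons, List.not_mem_nil, or_false] at hp
        rcases hp with rfl | rfl
        · rw [← hh]; exact m2 _
        · exact m3 _ _ (by omega)
      · intro n' hn'
        subst hn'
        by_contra hne
        have := f4 (forb [hp N D.k₁ (n' + 2), ce N D.k₁ n' (c.m D.k₁ n')]) (by
          rw [List.mem_flatMap]
          refine ⟨n', List.mem_range.2 (by omega), ?_⟩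
          rw [List.mem_map]
          exact ⟨_, List.mem_filter.2 ⟨hos _, by simpa [Option.isSome_iff_ne_none] using hne⟩,
            rfl⟩)
        rw [holds_forb] at this
        apply this
        intro p hp
        simp only [List.mem_cons, List.not_mem_nil, or_false] at hp
        rcases hp with rfl | rfl
        · have := m2 D.k₁; rw [hh] at this; exact this
        · exact m3 _ _ (by omega)

end Complete

end Pool.Agent.NPC.CL
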