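import Pool.Agent.H76.NPC.CookLevin1

/-!
# The Cook-Levin theorem, part 2: Mathlib's stack machines in normal form
-/

namespace Pool.Agent.NPC.CL

open Function (update)
open Turing

/-! ### Micro-steps -/

section Micro

variable {K : Type} [DecidableEq K] {Γ : K → Type} {Λ σ : Type}

/-- Machine states for micro-steps: the remaining statement (or `none` when halted), the internal
state and the stacks. -/
abbrev MS (Γ : K → Type) (Λ σ : Type) : Type :=
  Option (TM2.Stmt Γ Λ σ) × σ × (∀ k, List (Γ k))

/-- One micro-step. -/
def micro (M : Λ → TM2.Stmt Γ Λ σ) : MS Γ Λ σ → MS Γ Λ σ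
  | (none, v, S) => (none, v, S)
  | (some (TM2.Stmt.push k f q), v, S) => (some q, v, update S k (f v :: S k))
  | (some (TM2.Stmt.peek k f q), v, S) => (some q, f v (S k).head?, S)
  | (some (TM2.Stmt.pop k f q), v, S) => (some q, f v (S k).head?, update S k (S k).tail)
  | (some (TM2.Stmt.load a q), v, S) => (some q, a v, S)
  | (some (TM2.Stmt.branch f q₁ q₂), v, S) => (some (bif f v then q₁ else q₂), v, S)
  | (some (TM2.Stmt.goto f), v, S) => (some (M (f v)), v, S)
  | (some TM2.Stmt.halt, v, S) => (none, v, S)

/-- The micro-state of a configuration. -/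
def toMS (M : Λ → TM2.Stmt Γ Λ σ) (c : TM2.Cfg Γ Λ σ) : MS Γ Λ σ := (c.l.map M, c.var, c.stk)

/-- Depth of a statement. -/
def depth : TM2.Stmt Γ Λ σ → ℕ
  | TM2.Stmt.push _ _ q => depth q + 1
  | TM2.Stmt.peek _ _ q => depth q + 1
  | TM2.Stmt.pop _ _ q => depth q + 1
  | TM2.Stmt.load _ q => depth q + 1
  | TM2.Stmt.branch _ q₁ q₂ => max (depth q₁) (depth q₂) + 1
  | TM2.Stmt.goto _ => 1
  | TM2.Stmt.halt => 1

theorem micro_stepAux (M : Λ → TM2.Stmt Γ Λ σ) : ∀ (s : TM2.Stmt Γ Λ σ) (v : σ)
    (S : ∀ k, List (Γ k)), ∃ n ≤ depth s,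
      (micro M)^[n] (some s, v, S) = toMS M (TM2.stepAux s v S) := by
  intro s
  induction s with
  | push k f q ih =>
    intro v S
    obtain ⟨n, hn, h⟩ := ih v (update S k (f v :: S k))
    exact ⟨n + 1, by simpa [depth] using hn, by rw [Function.iterate_succ_apply]; exact h⟩
  | peek k f q ih =>
    intro v S
    obtain ⟨n, hn, h⟩ := ih (f v (S k).head?) S
    exact ⟨n + 1, by simpa [depth] using hn, by rw [Function.iterate_succ_apply]; exact h⟩
  | pop k f q ih =>
    intro v S
    obtain ⟨n, hn, h⟩ := ih (f v (S k).head?) (update S k (S k).tail)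
    exact ⟨n + 1, by simpa [depth] using hn, by rw [Function.iterate_succ_apply]; exact h⟩
  | load a q ih =>
    intro v S
    obtain ⟨n, hn, h⟩ := ih (a v) S
    exact ⟨n + 1, by simpa [depth] using hn, by rw [Function.iterate_succ_apply]; exact h⟩
  | branch f q₁ q₂ ih₁ ih₂ =>
    intro v S
    cases hf : f v
    · obtain ⟨n, hn, h⟩ := ih₂ v S
      refine ⟨n + 1, by simp [depth]; omega, ?_⟩
      rw [Function.iterate_succ_apply]
      simp only [micro, hf, cond_false, TM2.stepAux]
      exact h
    · obtain ⟨n, hn, h⟩ := ih₁ v S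
      refine ⟨n + 1, by simp [depth]; omega, ?_⟩
      rw [Function.iterate_succ_apply]
      simp only [micro, hf, cond_true, TM2.stepAux]
      exact h
  | goto f => intro v S; exact ⟨1, le_rfl, rfl⟩
  | halt => intro v S; exact ⟨1, le_rfl, rfl⟩

theorem micro_steps (M : Λ → TM2.Stmt Γ Λ σ) (B : ℕ) (hB : ∀ l, depth (M l) ≤ B) :
    ∀ (n : ℕ) (a b : TM2.Cfg Γ Λ σ), (flip bind (TM2.step M))^[n] (some a) = some b →
      ∃ m ≤ n * B, (micro M)^[m] (toMS M a) = toMS M b := by
  intro n
  induction n with
  | zero =>
    intro a b h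
    simp only [Function.iterate_zero, id_eq, Option.some.injEq] at h
    subst h
    exact ⟨0, by simp, rfl⟩
  | succ n ih =>
    intro a b h
    rw [Function.iterate_succ_apply] at h
    change (flip bind (TM2.step M))^[n] (TM2.step M a) = some b at h
    obtain ⟨l, v, S⟩ := a
    cases l with
    | none =>
      exfalso
      rw [TM2.step] at h
      have : ∀ n, (flip bind (TM2.step M))^[n] none = none := by
        intro n
        induction n with
        | zero => rfl
        | succ n ih => rw [Function.iterate_succ_apply]; exact ih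
      rw [this] at h
      simp at h
    | some l =>
      rw [TM2.step] at h
      obtain ⟨m, hm, hm'⟩ := ih _ _ h
      obtain ⟨m₁, hm₁, hm₁'⟩ := micro_stepAux M (M l) v S
      refine ⟨m + m₁, ?_, ?_⟩
      · have := hB l
        rw [Nat.add_mul, Nat.one_mul]
        omega
      · rw [Function.iterate_add_apply]
        change (micro M)^[m] ((micro M)^[m₁] (some (M l), v, S)) = _
        rw [hm₁', hm']

theorem micro_halted (M : Λ → TM2.Stmt Γ Λ σ) (v : σ) (S : ∀ k, List (Γ k)) (n : ℕ) :
    (micro M)^[n] (none, v, S) = (none, v, S) := by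
  induction n with
  | zero => rfl
  | succ n ih => rw [Function.iterate_succ_apply]; exact ih

end Micro

/-! ### The machine in normal form -/

section Norm

variable (tm : FinTM2)

instance : Fintype tm.Λ := tm.ΛFin
instance : Fintype tm.σ := tm.σFin
instance : Fintype tm.K := tm.kFin
instance : Fintype (tm.Γ tm.k₀) := tm.Γk₀Fin

open Classical in
/-- All statements occurring in the machine. -/
noncomputable def allS : Finset (TM2.Stmt tm.Γ tm.Λ tm.σ) :=
  Finset.univ.biUnion (fun l => TM2.stmts₁ (tm.m l))

theorem mem_allS_trans {s t : TM2.Stmt tm.Γ tm.Λ tm.σ} (ht : t ∈ allS tm)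
    (hs : s ∈ TM2.stmts₁ t) : s ∈ allS tm := by
  classical
  unfold allS at *
  rw [Finset.mem_biUnion] at *
  obtain ⟨l, hl, ht⟩ := ht
  exact ⟨l, hl, TM2.stmts₁_trans ht hs⟩

theorem main_mem_allS (l : tm.Λ) : tm.m l ∈ allS tm := by
  classical
  unfold allS
  rw [Finset.mem_biUnion]
  exact ⟨l, Finset.mem_univ _, TM2.stmts₁_self⟩

/-- The statements of the machine, as a type. -/
abbrev SS : Type := {s : TM2.Stmt tm.Γ tm.Λ tm.σ // s ∈ allS tm}

noncomputable instance : Fintype (SS tm) := Finset.Subtype.fintype _

/-- States of the normal form. -/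
abbrev NQ : Type := Option (SS tm) × tm.σ

/-- Alphabet of the normal form: input symbols, and symbols pushed by a statement in a given
internal state. -/
abbrev NA : Type := tm.Γ tm.k₀ ⊕ (SS tm × tm.σ)

open Classical in
/-- A statement as an element of `SS`. -/
noncomputable def mkS (s : TM2.Stmt tm.Γ tm.Λ tm.σ) : Option (SS tm) :=
  if h : s ∈ allS tm then some ⟨s, h⟩ else none

theorem mkS_eq {s : TM2.Stmt tm.Γ tm.Λ tm.σ} (h : s ∈ allS tm) : mkS tm s = some ⟨s, h⟩ :=
  dif_pos h

/-- The symbol of stack `k` represented by a symbol of the normal form. -/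
def val (k : tm.K) : NA tm → Option (tm.Γ k)
  | Sum.inl a => if h : tm.k₀ = k then some (h ▸ a) else none
  | Sum.inr (⟨s, _⟩, v) =>
    match s with
    | TM2.Stmt.push k' f _ => if h : k' = k then some (h ▸ f v) else none
    | _ => none

/-- The stack concerned by a statement. -/
def stackOf : TM2.Stmt tm.Γ tm.Λ tm.σ → tm.K
  | TM2.Stmt.push k _ _ => k
  | TM2.Stmt.peek k _ _ => k
  | TM2.Stmt.pop k _ _ => k
  | _ => tm.k₀

/-- The transition function on statements. -/
noncomputable def trans (s : SS tm) (v : tm.σ) (r : Option (NA tm)) : NQ tm × Op (NA tm) :=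
  match s.1 with
  | TM2.Stmt.push _ _ q => ((mkS tm q, v), Op.push (Sum.inr (s, v)))
  | TM2.Stmt.peek k f q => ((mkS tm q, f v (r.bind (val tm k))), Op.keep)
  | TM2.Stmt.pop k f q => ((mkS tm q, f v (r.bind (val tm k))), Op.pop)
  | TM2.Stmt.load a q => ((mkS tm q, a v), Op.keep)
  | TM2.Stmt.branch f q₁ q₂ => ((mkS tm (bif f v then q₁ else q₂), v), Op.keep)
  | TM2.Stmt.goto f => ((mkS tm (tm.m (f v)), v), Op.keep)
  | TM2.Stmt.halt => ((none, v), Op.keep)

/-- The machine in normal form. -/
noncomputable def nm : NM (NQ tm) tm.K (NA tm) where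
  κ q := match q.1 with
    | none => tm.k₀
    | some s => stackOf tm s.1
  δ q r := match q.1 with
    | none => ((none, q.2), Op.keep)
    | some s => trans tm s q.2 r

/-- The list of the contents of the cells below the pointer, from top to bottom. -/
def cellsOf {A : Type} (n : ℕ) (m : ℕ → Option A) : List (Option A) := ((List.range n).map m).reverse

@[simp] theorem cellsOf_zero {A : Type} (m : ℕ → Option A) : cellsOf 0 m = [] := rfl

theorem cellsOf_succ {A : Type} (n : ℕ) (m : ℕ → Option A) : cellsOf (n + 1) m = m n :: cellsOf n m := by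
  simp [cellsOf, List.range_succ]

theorem cellsOf_update {A : Type} (n : ℕ) (m : ℕ → Option A) (o : Option A) :
    cellsOf n (update m n o) = cellsOf n m := by
  unfold cellsOf
  congr 1
  apply List.map_congr_left
  intro j hj
  rw [List.mem_range] at hj
  rw [Function.update_of_ne (by omega)]

/-- The simulation relation. -/
structure Rel (b : tm.K → ℕ) (x : MS tm.Γ tm.Λ tm.σ) (c : Cf (NQ tm) tm.K (NA tm)) : Prop where
  q : c.q = (x.1.bind (mkS tm), x.2.1)
  mem : ∀ s ∈ x.1, s ∈ allS tm
  stk : ∀ k, ∃ l : List (NA tm), cellsOf (c.h k) (c.m k) = l.map some ++ List.replicate (b k) none ∧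
    l.map (val tm k) = (x.2.2 k).map some

variable {tm}

theorem Rel.read {b : tm.K → ℕ} {x : MS tm.Γ tm.Λ tm.σ} {c : Cf (NQ tm) tm.K (NA tm)}
    (h : Rel tm b x c) (k : tm.K) : (c.read k).bind (val tm k) = (x.2.2 k).head? := by
  obtain ⟨l, h1, h2⟩ := h.stk k
  rw [Cf.read]
  cases hh : c.h k with
  | zero =>
    rw [hh, cellsOf_zero] at h1
    have hl : l = [] := by
      cases l with
      | nil => rfl
      | cons a l => simp at h1
    subst hl
    have : x.2.2 k = [] := by simpa using h2.symm
    rw [this]
    rfl
  | succ n =>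
    rw [hh, cellsOf_succ] at h1
    cases l with
    | nil =>
      have : x.2.2 k = [] := by simpa using h2.symm
      rw [this]
      simp only [List.map_nil, List.nil_append] at h1
      have hm : c.m k n ∈ List.replicate (b k) (none : Option (NA tm)) := by
        rw [← h1]; exact List.mem_cons_self
      rw [List.mem_replicate] at hm
      simp [hm.2]
    | cons a l =>
      simp only [List.map_cons, List.cons_append, List.cons.injEq] at h1
      simp only [h1.1, Option.bind_some]
      cases hx : x.2.2 k with
      | nil => rw [hx] at h2; simp at h2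
      | cons g s =>
        rw [hx] at h2
        simp only [List.map_cons, List.cons.injEq] at h2
        rw [h2.1]
        rfl

theorem Rel.step_aux {b : tm.K → ℕ} {x x' : MS tm.Γ tm.Λ tm.σ} {c : Cf (NQ tm) tm.K (NA tm)}
    (h : Rel tm b x c) (hq : ((nm tm).step c).q = (x'.1.bind (mkS tm), x'.2.1))
    (hmem : ∀ s ∈ x'.1, s ∈ allS tm)
    (hk : ∀ k, k ≠ (nm tm).κ c.q → x'.2.2 k = x.2.2 k)
    (hk' : ∃ l : List (NA tm),
      cellsOf (((nm tm).step c).h ((nm tm).κ c.q)) (((nm tm).step c).m ((nm tm).κ c.q)) =
        l.map some ++ List.replicate (b ((nm tm).κ c.q)) none ∧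
      l.map (val tm ((nm tm).κ c.q)) = (x'.2.2 ((nm tm).κ c.q)).map some) :
    Rel tm b x' ((nm tm).step c) := by
  refine ⟨hq, hmem, fun k => ?_⟩
  by_cases hkk : k = (nm tm).κ c.q
  · subst hkk
    exact hk'
  · obtain ⟨l, h1, h2⟩ := h.stk k
    refine ⟨l, ?_, ?_⟩
    · simp only [NM.step, Function.update_of_ne hkk]
      exact h1
    · rw [hk k hkk]
      exact h2

theorem Rel.keep_aux {b : tm.K → ℕ} {x x' : MS tm.Γ tm.Λ tm.σ} {c : Cf (NQ tm) tm.K (NA tm)}
    (h : Rel tm b x c)
    (hδ : (nm tm).δ c.q (c.read ((nm tm).κ c.q)) = ((x'.1.bind (mkS tm), x'.2.1), Op.keep))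
    (hmem : ∀ s ∈ x'.1, s ∈ allS tm) (hS : x'.2.2 = x.2.2) : Rel tm b x' ((nm tm).step c) := by
  refine h.step_aux ?_ hmem (fun k _ => by rw [hS]) ?_
  · simp only [NM.step, hδ]
  · obtain ⟨l, h1, h2⟩ := h.stk ((nm tm).κ c.q)
    refine ⟨l, ?_, ?_⟩
    · simp only [NM.step, Function.update_self, hδ, newPtr, newMem]
      exact h1
    · rw [hS]
      exact h2

theorem Rel.step {b : tm.K → ℕ} {x : MS tm.Γ tm.Λ tm.σ} {c : Cf (NQ tm) tm.K (NA tm)}
    (h : Rel tm b x c) : Rel tm b (micro tm.m x) ((nm tm).step c) := by
  obtain ⟨s, v, S⟩ := x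
  cases s with
  | none =>
    have hq : c.q = (none, v) := h.q
    exact h.keep_aux (by simp [nm, hq, micro]) (by simp [micro]) rfl
  | some s =>
    have hs : s ∈ allS tm := h.mem s rfl
    have hq : c.q = (some ⟨s, hs⟩, v) := by
      rw [h.q]
      simp [mkS_eq tm hs]
    have hκ : (nm tm).κ c.q = stackOf tm s := by rw [hq]; rfl
    have hδ : ∀ r, (nm tm).δ c.q r = trans tm ⟨s, hs⟩ v r := by intro r; rw [hq]; rfl
    cases s with
    | push k f q =>
      have hq' : q ∈ allS tm := mem_allS_trans tm hs (by
        simp only [TM2.stmts₁, Finset.mem_insert]; exact Or.inr TM2.stmts₁_self)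
      have hκ' : (nm tm).κ c.q = k := hκ
      refine h.step_aux ?_ ?_ ?_ ?_
      · simp [NM.step, hδ, trans, micro]
      · intro s hs'
        simp only [micro, Option.mem_def, Option.some.injEq] at hs'
        rw [← hs']
        exact hq'
      · intro k' hk'
        rw [hκ'] at hk'
        simp [micro, Function.update_of_ne hk']
      · rw [hκ']
        obtain ⟨l, h1, h2⟩ := h.stk k
        refine ⟨Sum.inr (⟨TM2.Stmt.push k f q, hs⟩, v) :: l, ?_, ?_⟩
        · simp only [NM.step, hκ', Function.update_self, hδ, trans, newPtr, newMem]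
          rw [cellsOf_succ, Function.update_self, cellsOf_update, h1]
          rfl
        · simp only [List.map_cons, micro, Function.update_self, h2]
          simp [val]
    | peek k f q =>
      have hq' : q ∈ allS tm := mem_allS_trans tm hs (by
        simp only [TM2.stmts₁, Finset.mem_insert]; exact Or.inr TM2.stmts₁_self)
      have hκ' : (nm tm).κ c.q = k := hκ
      refine h.keep_aux ?_ ?_ rfl
      · rw [hδ, hκ']
        have := h.read k
        simp only [trans, micro, Option.bind_some]
        rw [this]
      · intro s hs'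
        simp only [micro, Option.mem_def, Option.some.injEq] at hs'
        rw [← hs']
        exact hq'
    | pop k f q =>
      have hq' : q ∈ allS tm := mem_allS_trans tm hs (by
        simp only [TM2.stmts₁, Finset.mem_insert]; exact Or.inr TM2.stmts₁_self)
      have hκ' : (nm tm).κ c.q = k := hκ
      have hread := h.read k
      refine h.step_aux ?_ ?_ ?_ ?_
      · simp only [NM.step, hκ', hδ, trans, micro, Option.bind_some]
        rw [hread]
      · intro s hs'
        simp only [micro, Option.mem_def, Option.some.injEq] at hs'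
        rw [← hs']
        exact hq'
      · intro k' hk'
        rw [hκ'] at hk'
        simp [micro, Function.update_of_ne hk']
      · rw [hκ']
        obtain ⟨l, h1, h2⟩ := h.stk k
        have hr : c.read k = (cellsOf (c.h k) (c.m k)).head?.join := by
          rw [Cf.read]
          cases c.h k with
          | zero => rfl
          | succ n => rw [cellsOf_succ]; rfl
        cases l with
        | nil =>
          have hS : S k = [] := by simpa using h2.symm
          refine ⟨[], ?_, ?_⟩
          · have hnone : c.read k = none := by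
              rw [hr, h1]
              cases b k with
              | zero => rfl
              | succ n => rw [List.map_nil, List.nil_append, List.replicate_succ]; rfl
            simp only [NM.step, hκ', Function.update_self, hδ, trans, newPtr, newMem, hnone]
            exact h1
          · simp [micro, hS]
        | cons a l =>
          have hsome : c.read k = some a := by
            rw [hr, h1]
            rfl
          refine ⟨l, ?_, ?_⟩
          · simp only [NM.step, hκ', Function.update_self, hδ, trans, newPtr, newMem, hsome]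
            cases hh : c.h k with
            | zero => rw [hh, cellsOf_zero] at h1; simp at h1
            | succ n =>
              rw [hh, cellsOf_succ] at h1
              simp only [List.map_cons, List.cons_append, List.cons.injEq] at h1
              simpa using h1.2
          · simp only [micro, Function.update_self]
            cases hx : S k with
            | nil => simp only [hx] at h2; simp at h2
            | cons g s =>
              simp only [hx] at h2
              simp only [List.map_cons, List.cons.injEq] at h2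
              exact h2.2
    | load a q =>
      have hq' : q ∈ allS tm := mem_allS_trans tm hs (by
        simp only [TM2.stmts₁, Finset.mem_insert]; exact Or.inr TM2.stmts₁_self)
      refine h.keep_aux ?_ ?_ rfl
      · rw [hδ]
        simp [trans, micro]
      · intro s hs'
        simp only [micro, Option.mem_def, Option.some.injEq] at hs'
        rw [← hs']
        exact hq'
    | branch f q₁ q₂ =>
      refine h.keep_aux ?_ ?_ rfl
      · rw [hδ]
        simp [trans, micro]
      · intro s hs'
        simp only [micro, Option.mem_def, Option.some.injEq] at hs'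
        rw [← hs']
        refine mem_allS_trans tm hs ?_
        simp only [TM2.stmts₁, Finset.mem_insert, Finset.mem_union]
        cases f v
        · exact Or.inr (Or.inr TM2.stmts₁_self)
        · exact Or.inr (Or.inl TM2.stmts₁_self)
    | goto f =>
      refine h.keep_aux ?_ ?_ rfl
      · rw [hδ]
        simp [trans, micro]
      · intro s hs'
        simp only [micro, Option.mem_def, Option.some.injEq] at hs'
        rw [← hs']
        exact main_mem_allS tm _
    | halt =>
      refine h.keep_aux ?_ ?_ rfl
      · rw [hδ]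
        simp [trans, micro]
      · intro s hs'
        simp [micro] at hs'

theorem Rel.iterate {b : tm.K → ℕ} {x : MS tm.Γ tm.Λ tm.σ} {c : Cf (NQ tm) tm.K (NA tm)}
    (h : Rel tm b x c) (n : ℕ) : Rel tm b ((micro tm.m)^[n] x) ((nm tm).step^[n] c) := by
  induction n with
  | zero => exact h
  | succ n ih =>
    rw [Function.iterate_succ_apply', Function.iterate_succ_apply']
    exact ih.step

end Norm

end Pool.Agent.NPC.CL
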