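import Pool.Agent.H76.NPC.CookLevin2
import Pool.Agent.H76.NPC.Hard

/-!
# The Cook-Levin theorem, part 3: the formula of a language in `NP`, and its computation
-/

namespace Pool.Agent.NPC.CL

open Function (update)
open Turing

/-- The part of `pairBits x w` before `w`. -/
def pairPre (x : List Bool) : List Bool := x.flatMap (fun b => [true, b]) ++ [false]

theorem pairBits_eq (x w : List Bool) : pairBits x w = pairPre x ++ w := by
  simp [pairBits, pairPre]

theorem pairPre_length (x : List Bool) : (pairPre x).length = 2 * x.length + 1 := by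
  simp [pairPre, List.length_flatMap]
  omega

theorem cellsOf_getElem {A : Type} (L : List (Option A)) :
    cellsOf L.length (fun j => (L[j]?).join) = L.reverse := by
  unfold cellsOf
  congr 1
  apply List.ext_getElem
  · simp
  · intro i h1 h2
    simp [List.getElem?_eq_getElem h2]

/-- The data of the tableau of a machine. -/
noncomputable def tab (tm : FinTM2) (inE : tm.Γ tm.k₀ ≃ Bool) (outE : tm.Γ tm.k₁ ≃ Bool) :
    Tab (NQ tm) tm.K (NA tm) := by
  classical exact
  { M := nm tm
    qs := (Finset.univ : Finset (NQ tm)).toList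
    ks := (Finset.univ : Finset tm.K).toList
    os := (Finset.univ : Finset (Option (NA tm))).toList
    q₀ := (mkS tm (tm.m tm.main), tm.initialState)
    k₀ := tm.k₀
    k₁ := tm.k₁
    sym := fun b => Sum.inl (inE.symm b)
    acc := fun q => q.1.isNone
    good := fun o => decide (o.bind (val tm tm.k₁) = some (outE.symm true)) }

theorem init_rel (tm : FinTM2) (inE : tm.Γ tm.k₀ ≃ Bool) (outE : tm.Γ tm.k₁ ≃ Bool) (P : ℕ)
    (y w : List Bool) (hw : w.length ≤ P) :
    Rel tm (fun k => if k = tm.k₀ then P - w.length else 0)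
      (toMS tm.m (initList tm (List.map inE.symm (y ++ w)))) (init (tab tm inE outE) P y w) := by
  refine ⟨?_, ?_, ?_⟩
  · rfl
  · intro s hs
    have : tm.m tm.main = s := by
      simpa [toMS, initList] using hs
    rw [← this]
    exact main_mem_allS tm _
  · intro k
    by_cases hk : k = tm.k₀
    · subst hk
      refine ⟨List.map (fun b => Sum.inl (inE.symm b)) (y ++ w), ?_, ?_⟩
      · have hk0 : (tab tm inE outE).k₀ = tm.k₀ := rfl
        simp only [init, hk0, if_true]
        have hlen : P + y.length = (List.replicate (P - w.length) (none : Option (NA tm)) ++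
            ((y ++ w).map (fun b => some ((tab tm inE outE).sym b))).reverse).length := by
          simp; omega
        rw [hlen, cellsOf_getElem]
        rw [List.reverse_append, List.reverse_reverse, List.reverse_replicate, List.map_map]
        rfl
      · have h1 : (toMS tm.m (initList tm (List.map inE.symm (y ++ w)))).2.2 tm.k₀ =
            List.map inE.symm (y ++ w) := by
          simp [toMS, initList]
        rw [h1, List.map_map, List.map_map]
        apply List.map_congr_left
        intro b _
        simp [val]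
    · refine ⟨[], ?_, ?_⟩
      · have hk0 : ¬ (k = (tab tm inE outE).k₀) := hk
        simp [init, hk0, hk]
      · have h1 : (toMS tm.m (initList tm (List.map inE.symm (y ++ w)))).2.2 k = [] := by
          simp [toMS, initList, hk]
        rw [h1]
        rfl

theorem accepts_iff (tm : FinTM2) (inE : tm.Γ tm.k₀ ≃ Bool) (outE : tm.Γ tm.k₁ ≃ Bool)
    {b : tm.K → ℕ} {v : tm.σ} {S : ∀ k, List (tm.Γ k)} {c : Cf (NQ tm) tm.K (NA tm)}
    (h : Rel tm b (none, v, S) c) :
    Accepts (tab tm inE outE) c ↔ S tm.k₁ = [outE.symm true] := by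
  classical
  have hk1 : (tab tm inE outE).k₁ = tm.k₁ := rfl
  have hgood : ∀ o, (tab tm inE outE).good o = true ↔
      o.bind (val tm tm.k₁) = some (outE.symm true) := by
    intro o
    simp [tab]
  have hacc : (tab tm inE outE).acc c.q = true := by
    rw [h.q]
    rfl
  obtain ⟨l, h1, h2⟩ := h.stk tm.k₁
  simp only at h2
  rw [Accepts, hk1]
  constructor
  · rintro ⟨_, n, hn, hg, hn'⟩
    rw [hgood] at hg
    rw [hn, cellsOf_succ] at h1
    cases l with
    | nil =>
      exfalso
      simp only [List.map_nil, List.nil_append] at h1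
      have hm : c.m tm.k₁ n ∈ List.replicate (b tm.k₁) (none : Option (NA tm)) := by
        rw [← h1]; exact List.mem_cons_self
      rw [List.mem_replicate] at hm
      rw [hm.2] at hg
      simp at hg
    | cons a l =>
      simp only [List.map_cons, List.cons_append, List.cons.injEq] at h1
      have hl : l = [] := by
        cases l with
        | nil => rfl
        | cons a' l =>
          exfalso
          cases n with
          | zero => simp at h1
          | succ n' =>
            have := hn' n' rfl
            have h3 := h1.2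
            rw [cellsOf_succ, this] at h3
            simp at h3
      subst hl
      rw [h1.1] at hg
      simp only [Option.bind_some] at hg
      simp only [List.map_cons, List.map_nil, hg] at h2
      cases hS : S tm.k₁ with
      | nil => rw [hS] at h2; simp at h2
      | cons g s =>
        rw [hS] at h2
        simp only [List.map_cons, List.cons.injEq, Option.some.injEq] at h2
        have hs : s = [] := by simpa using h2.2.symm
        rw [hs, h2.1]
  · intro hS
    rw [hS] at h2
    refine ⟨hacc, ?_⟩
    cases l with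
    | nil => simp at h2
    | cons a l =>
      simp only [List.map_cons, List.map_nil, List.cons.injEq] at h2
      have hl : l = [] := by simpa using h2.2
      subst hl
      cases hh : c.h tm.k₁ with
      | zero => rw [hh, cellsOf_zero] at h1; simp at h1
      | succ n =>
        rw [hh, cellsOf_succ] at h1
        simp only [List.map_cons, List.map_nil, List.cons_append, List.nil_append,
          List.cons.injEq] at h1
        refine ⟨n, rfl, ?_, ?_⟩
        · rw [hgood, h1.1]
          exact h2.1
        · rintro n' rfl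
          have h3 := h1.2
          rw [cellsOf_succ] at h3
          have hm : c.m tm.k₁ n' ∈ List.replicate (b tm.k₁) (none : Option (NA tm)) := by
            rw [← h3]; exact List.mem_cons_self
          rw [List.mem_replicate] at hm
          exact hm.2

/-- A bound for the depth of the statements. -/
noncomputable def maxDepth (tm : FinTM2) : ℕ := Finset.univ.sup (fun l : tm.Λ => depth (tm.m l))

theorem depth_le_maxDepth (tm : FinTM2) (l : tm.Λ) : depth (tm.m l) ≤ maxDepth tm :=
  Finset.le_sup (f := fun l : tm.Λ => depth (tm.m l)) (Finset.mem_univ l)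

theorem tab_correct (tm : FinTM2) (inE : tm.Γ tm.k₀ ≃ Bool) (outE : tm.Γ tm.k₁ ≃ Bool)
    (V : List Bool → List Bool) (B N P : ℕ) (y w : List Bool) (hw : w.length ≤ P)
    (hV : TM2OutputsInTime tm (List.map inE.invFun (id (y ++ w)))
      (some (List.map outE.invFun (id (V (y ++ w))))) B)
    (hN : B * maxDepth tm ≤ N) :
    V (y ++ w) = [true] ↔ Accepts (tab tm inE outE) (run (tab tm inE outE) P y w N) := by
  obtain ⟨⟨n, hn⟩, hnB⟩ := hV
  simp only at hnB
  obtain ⟨m, hm, hm'⟩ := micro_steps tm.m (maxDepth tm) (depth_le_maxDepth tm) n _ _ hn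
  have hmN : m ≤ N := hm.trans ((Nat.mul_le_mul_right _ hnB).trans hN)
  have hrel := (init_rel tm inE outE P y w hw).iterate N
  have e1 : (micro tm.m)^[N] (toMS tm.m (initList tm (List.map inE.symm (y ++ w)))) =
      toMS tm.m (haltList tm (List.map outE.symm (V (y ++ w)))) := by
    have : N = (N - m) + m := by omega
    rw [this, Function.iterate_add_apply]
    change (micro tm.m)^[N - m] ((micro tm.m)^[m] (toMS tm.m (initList tm
      (List.map inE.invFun (id (y ++ w)))))) = _
    rw [hm']
    exact micro_halted _ _ _ _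
  rw [e1] at hrel
  have h2 := accepts_iff tm inE outE hrel
  have h3 : (nm tm).step^[N] (init (tab tm inE outE) P y w) = run (tab tm inE outE) P y w N := rfl
  rw [h3] at h2
  rw [h2]
  have h4 : (toMS tm.m (haltList tm (List.map outE.symm (V (y ++ w))))).2.2 tm.k₁ =
      List.map outE.symm (V (y ++ w)) := by
    simp [toMS, haltList]
  have h5 : (haltList tm (List.map outE.symm (V (y ++ w)))).stk tm.k₁ =
      List.map outE.symm (V (y ++ w)) := h4
  rw [h5]
  constructor
  · intro h
    rw [h]
    rfl
  · intro h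
    have h6 : List.map outE.symm (V (y ++ w)) = List.map outE.symm [true] := h
    exact (List.map_injective_iff.2 outE.symm.injective) h6

theorem np_tab {L : Set (List Bool)} (hL : InNP L) :
    ∃ (tm : FinTM2) (inE : tm.Γ tm.k₀ ≃ Bool) (outE : tm.Γ tm.k₁ ≃ Bool) (P R : Polynomial ℕ),
      ∀ x, x ∈ L ↔ ∃ τ, Holds τ (formula (tab tm inE outE) (P.eval x.length) (pairPre x)
        (R.eval x.length)) := by
  obtain ⟨V, p, ⟨hV⟩, hL⟩ := hL
  refine ⟨hV.tm, hV.inputAlphabet, hV.outputAlphabet, p,
    (hV.time.comp (Polynomial.C 2 * Polynomial.X + Polynomial.C 1 + p)) *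
      Polynomial.C (maxDepth hV.tm), fun x => ?_⟩
  have key : ∀ w : List Bool, w.length ≤ p.eval x.length →
      (V (pairBits x w) = [true] ↔ Accepts (tab hV.tm hV.inputAlphabet hV.outputAlphabet)
        (run (tab hV.tm hV.inputAlphabet hV.outputAlphabet) (p.eval x.length) (pairPre x) w
          (((hV.time.comp (Polynomial.C 2 * Polynomial.X + Polynomial.C 1 + p)) *
      Polynomial.C (maxDepth hV.tm)).eval x.length))) := by
    intro w hw
    rw [pairBits_eq]
    refine tab_correct hV.tm hV.inputAlphabet hV.outputAlphabet V _ _ _ _ _ hw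
      (hV.outputsFun (pairPre x ++ w)) ?_
    rw [Polynomial.eval_mul, Polynomial.eval_C, Polynomial.eval_comp]
    refine Nat.mul_le_mul_right _ (eval_mono _ ?_)
    simp only [id_eq, List.length_append, pairPre_length, Polynomial.eval_add,
      Polynomial.eval_mul, Polynomial.eval_C, Polynomial.eval_X]
    omega
  rw [hL x]
  constructor
  · rintro ⟨w, hw, hVw⟩
    exact ⟨_, formula_sound _ _ _ w _ hw ((key w hw).1 hVw)⟩
  · rintro ⟨τ, hτ⟩
    obtain ⟨w, hw, hacc⟩ := formula_complete (fun q => by simp [tab]) (fun k => by simp [tab])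
      (fun o => by simp [tab]) hτ
    exact ⟨w, hw, (key w hw).2 hacc⟩

/-! ### Computation of the formula -/

/-- An encoding of a finite type. -/
@[instance_reducible] noncomputable def encFintype (α : Type) [Fintype α] : TEnc α :=
  ⟨fun a => toT ((Fintype.equivFin α a : Fin _) : ℕ), fun a b h => by
    have := TEnc.inj h
    exact (Fintype.equivFin α).injective (Fin.ext this)⟩

theorem polyOfFintype {Q β : Type} [Fintype Q] [TEnc Q] [TEnc β] (f : Q → β) : Poly f := by
  classical
  by_cases hQ : Nonempty Q
  · obtain ⟨q₀⟩ := hQ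
    have h1 : Poly (fun q : Q => (((Finset.univ : Finset Q).toList.map
        (fun q => (q, f q))).filter (fun p => decide (p.1 = q))).head?) :=
      Poly.head? (Poly.filter (p := fun q (p : Q × β) => decide (p.1 = q)) (Poly.const _)
        (Poly.decide_eq (Poly.fst (Poly.snd Poly.id)) (Poly.fst Poly.id)))
    refine (Poly.optCases (g := fun _ => f q₀) (h := fun _ b => b.2) h1 (Poly.const _)
      (Poly.snd (Poly.snd Poly.id))).congr fun q => ?_
    have key : ∀ l : List Q, q ∈ l → ((l.map (fun q => (q, f q))).filter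
        (fun p => decide (p.1 = q))).head? = some (q, f q) := by
      intro l
      induction l with
      | nil => intro h; simp at h
      | cons a l ih =>
        intro h
        by_cases ha : a = q
        · subst ha; simp
        · rw [List.mem_cons] at h
          rcases h with h | h
          · exact absurd h.symm ha
          · rw [List.map_cons, List.filter_cons]
            simp only [ha, decide_false, Bool.false_eq_true, if_false]
            exact ih h
    rw [key _ (by simp)]
  · refine ⟨Cmd.skip, 1, fun q => absurd ⟨q⟩ hQ⟩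

section PolyFormula

variable {Q K A : Type} [TEnc Q] [TEnc K] [TEnc A] [Fintype Q] [Fintype K] [Fintype A]
  [DecidableEq K]

/-- Variables as elements of a sum type. -/
def Var.toSum : Var Q K A → (ℕ × Q) ⊕ ((ℕ × K × ℕ) ⊕ (ℕ × K × ℕ × Option A))
  | Var.st t q => Sum.inl (t, q)
  | Var.hp t k h => Sum.inr (Sum.inl (t, k, h))
  | Var.ce t k j o => Sum.inr (Sum.inr (t, k, j, o))

instance : TEnc (Var Q K A) := ⟨fun v => toT v.toSum, fun v w h => by
  have := TEnc.inj h
  cases v <;> cases w <;> simp_all [Var.toSum]⟩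

variable {α : Type} [TEnc α]

omit [Fintype Q] [Fintype K] [Fintype A] [DecidableEq K] in
theorem pSt {t : α → ℕ} {q : α → Q} (ht : Poly t) (hq : Poly q) :
    Poly (fun a => (Var.st (t a) (q a) : Var Q K A)) :=
  Poly.of_toT (Poly.toT' (Poly.inl (γ := (ℕ × K × ℕ) ⊕ (ℕ × K × ℕ × Option A))
    (Poly.pair ht hq)))

omit [Fintype Q] [Fintype K] [Fintype A] [DecidableEq K] in
theorem pHp {t h : α → ℕ} {k : α → K} (ht : Poly t) (hk : Poly k) (hh : Poly h) :
    Poly (fun a => (Var.hp (t a) (k a) (h a) : Var Q K A)) :=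
  Poly.of_toT (Poly.toT' (Poly.inr (β := ℕ × Q) (Poly.inl (γ := ℕ × K × ℕ × Option A)
    (Poly.pair ht (Poly.pair hk hh)))))

omit [Fintype Q] [Fintype K] [Fintype A] [DecidableEq K] in
theorem pCe {t j : α → ℕ} {k : α → K} {o : α → Option A} (ht : Poly t) (hk : Poly k) (hj : Poly j)
    (ho : Poly o) : Poly (fun a => (Var.ce (t a) (k a) (j a) (o a) : Var Q K A)) :=
  Poly.of_toT (Poly.toT' (Poly.inr (β := ℕ × Q) (Poly.inr (β := ℕ × K × ℕ)
    (Poly.pair ht (Poly.pair hk (Poly.pair hj ho))))))

theorem pImp {V : Type} [TEnc V] {ps : α → List V} {c : α → V} (hps : Poly ps) (hc : Poly c) :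
    Poly (fun a => imp (ps a) (c a)) :=
  Poly.append (Poly.map (F := fun _ v => (false, v)) hps
    (Poly.pair (Poly.const false) (Poly.snd Poly.id)))
    (Poly.cons (Poly.pair (Poly.const true) hc) (Poly.const []))

theorem pForb {V : Type} [TEnc V] {ps : α → List V} (hps : Poly ps) :
    Poly (fun a => forb (ps a)) :=
  Poly.map (F := fun _ v => (false, v)) hps (Poly.pair (Poly.const false) (Poly.snd Poly.id))

theorem pList1 {V : Type} [TEnc V] {a : α → V} (ha : Poly a) : Poly (fun x => [a x]) :=
  Poly.cons ha (Poly.const [])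

theorem pList2 {V : Type} [TEnc V] {a b : α → V} (ha : Poly a) (hb : Poly b) :
    Poly (fun x => [a x, b x]) :=
  Poly.cons ha (pList1 hb)

theorem pList3 {V : Type} [TEnc V] {a b c : α → V} (ha : Poly a) (hb : Poly b) (hc : Poly c) :
    Poly (fun x => [a x, b x, c x]) :=
  Poly.cons ha (pList2 hb hc)

variable (D : Tab Q K A)

omit [DecidableEq K] in
theorem pKappa {q : α → Q} (hq : Poly q) : Poly (fun a => D.M.κ (q a)) :=
  (polyOfFintype D.M.κ).comp hq

/-- The pushed symbol, if any. -/
def pushed (q : Q) (o : Option A) : Option A :=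
  match (D.M.δ q o).2 with
  | Op.push a => some a
  | _ => none

/-- The kind of pointer move. -/
def pkind (q : Q) (o : Option A) : ℕ :=
  match (D.M.δ q o).2 with
  | Op.keep => 0
  | Op.pop => match o with
    | none => 0
    | some _ => 1
  | Op.push _ => 2

omit [TEnc Q] [TEnc K] [TEnc A] [Fintype Q] [Fintype K] [Fintype A] [DecidableEq K] in
theorem newPtr_eq (q : Q) (o : Option A) (h : ℕ) : newPtr (D.M.δ q o).2 o h =
    if pkind D q o = 0 then h else if pkind D q o = 1 then h - 1 else h + 1 := by
  unfold newPtr pkind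
  cases (D.M.δ q o).2 <;> simp
  cases o <;> simp

omit [DecidableEq K] in
theorem pRd {t h : α → ℕ} {q : α → Q} {ps : α → List (Var Q K A)} {o : α → Option A}
    (ht : Poly t) (hq : Poly q) (hh : Poly h) (hps : Poly ps) (ho : Poly o) :
    Poly (fun a => rdClauses D (t a) (q a) (h a) (ps a) (o a)) := by
  have hδ : Poly (fun a => (D.M.δ (q a) (o a)).1) :=
    (polyOfFintype (fun p : Q × Option A => (D.M.δ p.1 p.2).1)).comp (Poly.pair hq ho)
  have hk : Poly (fun a => D.M.κ (q a)) := pKappa D hq
  have hpk : Poly (fun a => pkind D (q a) (o a)) :=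
    (polyOfFintype (fun p : Q × Option A => pkind D p.1 p.2)).comp (Poly.pair hq ho)
  have hpu : Poly (fun a => pushed D (q a) (o a)) :=
    (polyOfFintype (fun p : Q × Option A => pushed D p.1 p.2)).comp (Poly.pair hq ho)
  have hnp : Poly (fun a => newPtr (D.M.δ (q a) (o a)).2 (o a) (h a)) :=
    (Poly.ite (Poly.decide_eq hpk (Poly.const 0)) hh (Poly.ite (Poly.decide_eq hpk (Poly.const 1))
      (Poly.sub hh (Poly.const 1)) (Poly.succ hh))).congr fun a => by rw [newPtr_eq]
  have hpre : Poly (fun a => Var.st (t a) (q a) :: Var.hp (t a) (D.M.κ (q a)) (h a) :: ps a) :=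
    Poly.cons (pSt ht hq) (Poly.cons (pHp ht hk hh) hps)
  have h3 : Poly (fun a => match pushed D (q a) (o a) with
      | none => ([] : List (List (Bool × Var Q K A)))
      | some b => [imp (Var.st (t a) (q a) :: Var.hp (t a) (D.M.κ (q a)) (h a) :: ps a)
        (Var.ce (t a + 1) (D.M.κ (q a)) (h a) (some b))]) :=
    Poly.optCases (h := fun a b => [imp (Var.st (t a) (q a) :: Var.hp (t a) (D.M.κ (q a)) (h a) ::
        ps a) (Var.ce (t a + 1) (D.M.κ (q a)) (h a) (some b))]) hpu (Poly.const [])
      (pList1 (pImp (hpre.comp (Poly.fst Poly.id)) (pCe ((Poly.succ ht).comp (Poly.fst Poly.id))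
        (hk.comp (Poly.fst Poly.id)) (hh.comp (Poly.fst Poly.id)) (Poly.some (Poly.snd Poly.id)))))
  refine (Poly.cons (pImp hpre (pSt (Poly.succ ht) hδ)) (Poly.cons
    (pImp hpre (pHp (Poly.succ ht) hk hnp)) h3)).congr fun a => ?_
  rw [rdClauses]
  congr 2
  unfold pushed
  cases (D.M.δ (q a) (o a)).2 <;> rfl

omit [DecidableEq K] in
theorem pTr {t h : α → ℕ} {q : α → Q} (ht : Poly t) (hh : Poly h) (hq : Poly q) :
    Poly (fun a => trClauses D (t a) (h a) (q a)) := by
  have h1 : Poly (fun a => D.os.flatMap (fun o => rdClauses D (t a) (q a) (h a - 1 + 1)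
      [Var.ce (t a) (D.M.κ (q a)) (h a - 1) o] o)) :=
    Poly.flatMap (F := fun a o => rdClauses D (t a) (q a) (h a - 1 + 1)
      [Var.ce (t a) (D.M.κ (q a)) (h a - 1) o] o) (Poly.const D.os)
      (pRd D (ht.comp (Poly.fst Poly.id)) (hq.comp (Poly.fst Poly.id))
        (Poly.succ (Poly.sub (hh.comp (Poly.fst Poly.id)) (Poly.const 1)))
        (pList1 (pCe (ht.comp (Poly.fst Poly.id)) (pKappa D (hq.comp (Poly.fst Poly.id)))
          (Poly.sub (hh.comp (Poly.fst Poly.id)) (Poly.const 1)) (Poly.snd Poly.id)))
        (Poly.snd Poly.id))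
  have h0 : Poly (fun a => rdClauses D (t a) (q a) 0 [] none) :=
    pRd D ht hq (Poly.const 0) (Poly.const []) (Poly.const none)
  refine (Poly.ite (p := fun a => h a = 0) (Poly.decide_eq hh (Poly.const 0)) h0 h1).congr
    fun a => ?_
  cases h a <;> simp [trClauses]

theorem pFp {t h : α → ℕ} {q : α → Q} (ht : Poly t) (hh : Poly h) (hq : Poly q) :
    Poly (fun a => fpClauses D (t a) (h a) (q a)) := by
  have h1 : Poly (fun a => D.ks.filter (fun k => decide (k ≠ D.M.κ (q a)))) :=
    Poly.filter (p := fun a k => decide (k ≠ D.M.κ (q a))) (Poly.const _)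
      (Poly.decide_not (Poly.decide_eq (Poly.snd Poly.id) (pKappa D (hq.comp (Poly.fst Poly.id)))))
  exact Poly.map (F := fun a k => imp [Var.st (t a) (q a), Var.hp (t a) k (h a)]
      (Var.hp (t a + 1) k (h a))) h1
    (pImp (pList2 (pSt (ht.comp (Poly.fst Poly.id)) (hq.comp (Poly.fst Poly.id)))
      (pHp (ht.comp (Poly.fst Poly.id)) (Poly.snd Poly.id) (hh.comp (Poly.fst Poly.id))))
      (pHp (Poly.succ (ht.comp (Poly.fst Poly.id))) (Poly.snd Poly.id)
        (hh.comp (Poly.fst Poly.id))))

omit [Fintype Q] [Fintype K] [Fintype A] [DecidableEq K] in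
theorem pFm {t h : α → ℕ} (ht : Poly t) (hh : UPoly h) :
    Poly (fun a => fmClauses D (t a) (h a)) := by
  refine Poly.flatMap (F := fun a j => D.ks.flatMap (fun k => D.os.map
    (fun o => imp [Var.hp (t a) k (h a), Var.ce (t a) k j o] (Var.ce (t a + 1) k j o))))
      hh.range ?_
  refine Poly.flatMap (F := fun (p : α × ℕ) k => D.os.map
    (fun o => imp [Var.hp (t p.1) k (h p.1), Var.ce (t p.1) k p.2 o]
      (Var.ce (t p.1 + 1) k p.2 o))) (Poly.const _) ?_
  refine Poly.map (F := fun (p : (α × ℕ) × K) o =>
    imp [Var.hp (t p.1.1) p.2 (h p.1.1), Var.ce (t p.1.1) p.2 p.1.2 o]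
      (Var.ce (t p.1.1 + 1) p.2 p.1.2 o)) (Poly.const _) ?_
  have f1 : Poly (fun x : ((α × ℕ) × K) × Option A => x.1.1.1) :=
    Poly.fst (Poly.fst (Poly.fst Poly.id))
  have f2 : Poly (fun x : ((α × ℕ) × K) × Option A => x.1.2) := Poly.snd (Poly.fst Poly.id)
  have f3 : Poly (fun x : ((α × ℕ) × K) × Option A => x.1.1.2) :=
    Poly.snd (Poly.fst (Poly.fst Poly.id))
  have f4 : Poly (fun x : ((α × ℕ) × K) × Option A => x.2) := Poly.snd Poly.id
  exact pImp (pList2 (pHp (ht.comp f1) f2 (hh.toPoly.comp f1)) (pCe (ht.comp f1) f2 f3 f4))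
    (pCe (Poly.succ (ht.comp f1)) f2 f3 f4)

theorem pT {t h : α → ℕ} (ht : Poly t) (hh : UPoly h) : Poly (fun a => tClauses D (t a) (h a)) := by
  refine Poly.append (Poly.flatMap (F := fun a q => trClauses D (t a) (h a) q ++
    fpClauses D (t a) (h a) q) (Poly.const _) ?_) (pFm D ht hh)
  exact Poly.append
    (pTr D (ht.comp (Poly.fst Poly.id)) (hh.toPoly.comp (Poly.fst Poly.id)) (Poly.snd Poly.id))
    (pFp D (ht.comp (Poly.fst Poly.id)) (hh.toPoly.comp (Poly.fst Poly.id)) (Poly.snd Poly.id))

theorem pIn {P : α → ℕ} {y : α → List Bool} (hP : UPoly P) (hy : Poly y) :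
    Poly (fun a => inClauses D (P a) (y a)) := by
  have hP' := hP.toPoly
  refine Poly.cons (Poly.const _) (Poly.append ?_ (Poly.append ?_ (Poly.append ?_ ?_)))
  · refine Poly.map (F := fun a k => [(true, Var.hp 0 k (if k = D.k₀ then P a + (y a).length
      else 0))]) (Poly.const _) ?_
    refine pList1 (Poly.pair (Poly.const true) (pHp (Poly.const 0) (Poly.snd Poly.id) ?_))
    exact Poly.ite (Poly.decide_eq (Poly.snd Poly.id) (Poly.const _))
      (Poly.add (hP'.comp (Poly.fst Poly.id)) (Poly.length (hy.comp (Poly.fst Poly.id))))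
      (Poly.const 0)
  · refine Poly.map (F := fun a (p : Bool × ℕ) => [(true, Var.ce 0 D.k₀ (P a + p.2)
      (some (D.sym p.1)))]) (Poly.zipIdx (Poly.reverse hy)) ?_
    exact pList1 (Poly.pair (Poly.const true) (pCe (Poly.const 0) (Poly.const _)
      (Poly.add (hP'.comp (Poly.fst Poly.id)) (Poly.snd (Poly.snd Poly.id)))
      (Poly.some ((polyOfFintype D.sym).comp (Poly.fst (Poly.snd Poly.id))))))
  · refine Poly.map (F := fun _ j => [(true, Var.ce 0 D.k₀ j none),
      (true, Var.ce 0 D.k₀ j (some (D.sym false))), (true, Var.ce 0 D.k₀ j (some (D.sym true)))])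
      hP.range ?_
    exact pList3
      (Poly.pair (Poly.const true) (pCe (Poly.const 0) (Poly.const _) (Poly.snd Poly.id)
        (Poly.const _)))
      (Poly.pair (Poly.const true) (pCe (Poly.const 0) (Poly.const _) (Poly.snd Poly.id)
        (Poly.const _)))
      (Poly.pair (Poly.const true) (pCe (Poly.const 0) (Poly.const _) (Poly.snd Poly.id)
        (Poly.const _)))
  · refine Poly.map (F := fun _ j => imp [Var.ce 0 D.k₀ (j + 1) none] (Var.ce 0 D.k₀ j none))
      (UPoly.range (UPoly.of_le (Poly.sub hP' (Poly.const 1)) hP (fun a => Nat.sub_le _ _))) ?_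
    exact pImp (pList1 (pCe (Poly.const 0) (Poly.const _) (Poly.succ (Poly.snd Poly.id))
      (Poly.const _))) (pCe (Poly.const 0) (Poly.const _) (Poly.snd Poly.id) (Poly.const _))

omit [DecidableEq K] in
theorem pFi {N H : α → ℕ} (hN : Poly N) (hH : UPoly H) :
    Poly (fun a => fiClauses D (N a) (H a)) := by
  refine Poly.append ?_ (Poly.append ?_ (Poly.append ?_ ?_))
  · exact Poly.map (F := fun a q => forb [Var.st (N a) q]) (Poly.const _)
      (pForb (pList1 (pSt (hN.comp (Poly.fst Poly.id)) (Poly.snd Poly.id))))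
  · exact pList1 (pForb (pList1 (pHp hN (Poly.const _) (Poly.const _))))
  · refine Poly.flatMap (F := fun a h => (D.os.filter (fun o => !(D.good o))).map
      (fun o => forb [Var.hp (N a) D.k₁ (h + 1), Var.ce (N a) D.k₁ h o])) hH.range ?_
    refine Poly.map (F := fun (p : α × ℕ) o =>
      forb [Var.hp (N p.1) D.k₁ (p.2 + 1), Var.ce (N p.1) D.k₁ p.2 o]) (Poly.const _) ?_
    have f1 : Poly (fun x : (α × ℕ) × Option A => x.1.1) := Poly.fst (Poly.fst Poly.id)
    have f2 : Poly (fun x : (α × ℕ) × Option A => x.1.2) := Poly.snd (Poly.fst Poly.id)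
    exact pForb (pList2 (pHp (hN.comp f1) (Poly.const _) (Poly.add f2 (Poly.const 1)))
      (pCe (hN.comp f1) (Poly.const _) f2 (Poly.snd Poly.id)))
  · refine Poly.flatMap (F := fun a h => (D.os.filter (fun o => o.isSome)).map
      (fun o => forb [Var.hp (N a) D.k₁ (h + 2), Var.ce (N a) D.k₁ h o])) hH.range ?_
    refine Poly.map (F := fun (p : α × ℕ) o =>
      forb [Var.hp (N p.1) D.k₁ (p.2 + 2), Var.ce (N p.1) D.k₁ p.2 o]) (Poly.const _) ?_
    have f1 : Poly (fun x : (α × ℕ) × Option A => x.1.1) := Poly.fst (Poly.fst Poly.id)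
    have f2 : Poly (fun x : (α × ℕ) × Option A => x.1.2) := Poly.snd (Poly.fst Poly.id)
    exact pForb (pList2 (pHp (hN.comp f1) (Poly.const _) (Poly.add f2 (Poly.const 2)))
      (pCe (hN.comp f1) (Poly.const _) f2 (Poly.snd Poly.id)))

theorem pFormula {P N : α → ℕ} {y : α → List Bool} (hP : UPoly P) (hy : Poly y) (hN : UPoly N) :
    Poly (fun a => formula D (P a) (y a) (N a)) := by
  have hH : UPoly (fun a => P a + (y a).length + N a + 1) :=
    UPoly.add (UPoly.add (UPoly.add hP (UPoly.length hy)) hN) (UPoly.const 1)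
  have key : Poly (fun a => (List.range (N a)).flatMap (fun t =>
      (List.range (P a + (y a).length + N a + 1)).flatMap (fun h => tClauses D t
        (min h (P a + (y a).length + N a + 1))))) := by
    refine Poly.flatMap (F := fun a t => (List.range (P a + (y a).length + N a + 1)).flatMap
      (fun h => tClauses D t (min h (P a + (y a).length + N a + 1)))) hN.range ?_
    refine Poly.flatMap (F := fun (p : α × ℕ) h => tClauses D p.2
      (min h (P p.1 + (y p.1).length + N p.1 + 1)))
      (hH.range.comp (Poly.fst Poly.id)) ?_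
    refine pT D (Poly.snd (Poly.fst Poly.id)) ?_
    refine UPoly.of_le (Poly.min (Poly.snd Poly.id) (hH.toPoly.comp (Poly.fst (Poly.fst Poly.id))))
      (hH.comp (Poly.fst (Poly.fst Poly.id))) (fun x => ?_)
    exact min_le_right _ _
  refine (Poly.append (pIn D hP hy) (Poly.append key (pFi D hN.toPoly hH))).congr fun a => ?_
  rw [formula]
  congr 2
  apply List.flatMap_congr
  intro t _
  apply List.flatMap_congr
  intro h hh
  rw [List.mem_range] at hh
  rw [min_eq_left hh.le]

theorem pPre {x : α → List Bool} (hx : Poly x) : Poly (fun a => pairPre (x a)) :=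
  Poly.append (Poly.flatMap (F := fun _ b => [true, b]) hx
    (pList2 (Poly.const true) (Poly.snd Poly.id))) (Poly.const _)

end PolyFormula

end CL

open CL in
/-- Truth-table satisfiability of formulas in conjunctive normal form with variables in `V`: a
literal `(b, v)` holds iff `v` has the value `b`. -/
def SatV (V : Type) (φ : List (List (Bool × V))) : Prop :=
  ∃ τ : V → Bool, ∀ c ∈ φ, ∃ l ∈ c, τ l.2 = l.1

open CL in
/-- The Cook-Levin theorem, with structured variables. -/
theorem cookLevin_aux {L : Set (List Bool)} (hL : InNP L) :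
    ∃ (V : Type) (_ : TEnc V) (f : List Bool → List (List (Bool × V))),
      PC (fun x : List Bool => x) (bits : List (List (Bool × V)) → List Bool) f ∧
        ∀ x, x ∈ L ↔ SatV V (f x) := by
  obtain ⟨tm, inE, outE, P, R, h⟩ := np_tab hL
  letI := encFintype (NQ tm)
  letI := encFintype tm.K
  letI := encFintype (NA tm)
  refine ⟨Var (NQ tm) tm.K (NA tm), inferInstance, fun x => formula (tab tm inE outE)
    (P.eval x.length) (pairPre x) (R.eval x.length), ?_, h⟩
  have h1 : Poly (fun x : List Bool => formula (tab tm inE outE)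
    (P.eval x.length) (pairPre x) (R.eval x.length)) :=
    pFormula _ (UPoly.eval (UPoly.length Poly.id) P) (pPre Poly.id)
      (UPoly.eval (UPoly.length Poly.id) R)
  exact PC.comp (ea := fun x : List Bool => x) (eb := (bits : List Bool → List Bool))
    (ec := bits) (g := fun x : List Bool => formula (tab tm inE outE)
    (P.eval x.length) (pairPre x) (R.eval x.length)) (f := fun x => x) h1 PC.ofBits

end Pool.Agent.NPC
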