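import Pool.Agent.H76.NPC.Hard
import Pool.Agent.H76.NPC.Classes
import Pool.Agent.H76.H642R2.TMSim

/-!
# Decoding, and membership in `P`, `NP`, `coNP` of decision problems about encodable data

* `TDec α`: encodable types whose codes can be recognised and decoded in polynomial time.
* `parse`: the raw parser from bit strings to trees.
* `InP`, `InPP`, `inPP_of`, `inNPP_of`, `InCoNP`, `CoNPHard`, ...
-/

namespace Pool.Agent.NPC

open Turing

/-! ### Trees and lists of trees -/

/-- A tree as the list of the left subtrees along its right spine. -/
def T.toList : T → List T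
  | T.nil => []
  | T.node a r => a :: T.toList r

theorem T.ofList_toList : ∀ t : T, T.ofList t.toList = t
  | T.nil => rfl
  | T.node a r => by rw [T.toList, T.ofList, T.ofList_toList r]

theorem T.toList_ofList : ∀ l : List T, (T.ofList l).toList = l
  | [] => rfl
  | a :: l => by rw [T.ofList, T.toList, T.toList_ofList l]

theorem toT_toList (t : T) : toT t.toList = t := by
  change T.ofList (t.toList.map (fun t => t)) = t
  rw [List.map_id', T.ofList_toList]

namespace Poly

variable {α β γ δ σ : Type} [TEnc α] [TEnc β] [TEnc γ] [TEnc δ] [TEnc σ]

theorem treeList {t : α → T} (ht : Poly t) : Poly (fun a => (t a).toList) :=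
  of_toT (ht.congr fun a => (toT_toList (t a)).symm)

/-- Case distinction on a tree. -/
theorem treeCases {t : α → T} {g : α → γ} {h : α → T → T → γ} (ht : Poly t) (hg : Poly g)
    (hh : Poly (fun p : α × T × T => h p.1 p.2.1 p.2.2)) :
    Poly (fun a => match t a with | T.nil => g a | T.node l r => h a l r) := by
  have h1 : Poly (fun p : α × T × List T => h p.1 p.2.1 (toT p.2.2)) :=
    hh.comp (pair (fst id) (pair (fst (snd id)) ((snd (snd id)).toT')))
  refine (listCases (h := fun a b (l : List T) => h a b (toT l)) (treeList ht) hg h1).congr
    fun a => ?_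
  cases t a with
  | nil => rfl
  | node l r => simp only [T.toList, toT_toList]

theorem optBind {o : α → Option β} {f : α → β → Option γ} (ho : Poly o)
    (hf : Poly (fun p : α × β => f p.1 p.2)) : Poly (fun a => (o a).bind (f a)) :=
  (optCases (g := fun _ => (none : Option γ)) ho (const _) hf).congr fun a => by
    cases o a <;> rfl

theorem optMap {o : α → Option β} {f : α → β → γ} (ho : Poly o)
    (hf : Poly (fun p : α × β => f p.1 p.2)) : Poly (fun a => (o a).map (f a)) :=
  (optCases (g := fun _ => (none : Option γ)) (h := fun a b => Option.some (f a b)) ho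
    (const _) (some hf)).congr fun a => by cases o a <;> rfl

theorem isSome {o : α → Option β} (ho : Poly o) : Poly (fun a => (o a).isSome) :=
  (optCases (g := fun _ => false) (h := fun _ _ => true) ho (const _) (const _)).congr fun a => by
    cases o a <;> rfl

end Poly

/-! ### Decodable types -/

/-- Encodable types whose codes can be recognised and decoded in polynomial time. -/
class TDec (α : Type) [TEnc α] where
  /-- the decoder -/
  dec : T → Option α
  /-- it inverts the coding -/
  dec_toT : ∀ a, dec (toT a) = some a
  /-- it accepts only codes -/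
  toT_dec : ∀ t a, dec t = some a → toT a = t
  /-- it is polynomial-time computable -/
  poly_dec : Poly dec

open TDec (dec dec_toT toT_dec poly_dec)

instance : TDec T where
  dec t := some t
  dec_toT _ := rfl
  toT_dec t a h := by cases h; rfl
  poly_dec := Poly.some Poly.id

instance : TDec Unit where
  dec t := match t with
    | T.nil => some ()
    | T.node _ _ => none
  dec_toT _ := rfl
  toT_dec t a h := by
    cases t with
    | nil => rfl
    | node l r => simp at h
  poly_dec := Poly.treeCases (h := fun _ _ _ => (none : Option Unit)) Poly.id (Poly.const _)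
    (Poly.const _)

instance : TDec Bool where
  dec t := match t with
    | T.nil => some false
    | T.node l r => if l = T.nil ∧ r = T.nil then some true else none
  dec_toT b := by cases b <;> rfl
  toT_dec t a h := by
    cases t with
    | nil => cases h; rfl
    | node l r =>
      simp only [Option.ite_none_right_eq_some, Option.some.injEq] at h
      obtain ⟨⟨rfl, rfl⟩, rfl⟩ := h
      rfl
  poly_dec := Poly.treeCases
    (h := fun _ l r => if l = T.nil ∧ r = T.nil then some true else none) Poly.id (Poly.const _)
    (Poly.ite (Poly.decide_and (Poly.decide_eq (Poly.fst (Poly.snd Poly.id)) (Poly.const _))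
      (Poly.decide_eq (Poly.snd (Poly.snd Poly.id)) (Poly.const _))) (Poly.const _) (Poly.const _))

section Inst

variable {α β : Type} [TEnc α] [TEnc β] [TDec α] [TDec β]

instance : TDec (α × β) where
  dec t := match t with
    | T.nil => none
    | T.node l r => (dec l : Option α).bind fun a => (dec r : Option β).map fun b => (a, b)
  dec_toT p := by obtain ⟨a, b⟩ := p; simp [dec_toT]
  toT_dec t p h := by
    cases t with
    | nil => simp at h
    | node l r =>
      simp only [Option.bind_eq_some_iff, Option.map_eq_some_iff] at h
      obtain ⟨a, ha, b, hb, rfl⟩ := h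
      simp [toT_dec _ _ ha, toT_dec _ _ hb]
  poly_dec := by
    refine Poly.treeCases (h := fun _ l r =>
      (dec l : Option α).bind fun a => (dec r : Option β).map fun b => (a, b)) Poly.id
      (Poly.const _) ?_
    refine Poly.optBind (poly_dec.comp (Poly.fst (Poly.snd Poly.id))) ?_
    refine Poly.optMap (poly_dec.comp (Poly.snd (Poly.snd (Poly.fst Poly.id)))) ?_
    exact Poly.pair (Poly.snd (Poly.fst Poly.id)) (Poly.snd Poly.id)

instance : TDec (Option α) where
  dec t := match t with
    | T.nil => some none
    | T.node l r => if r = T.nil then (dec l : Option α).map some else none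
  dec_toT o := by cases o <;> simp [dec_toT]
  toT_dec t o h := by
    cases t with
    | nil => simp at h; subst h; rfl
    | node l r =>
      simp only [Option.ite_none_right_eq_some, Option.map_eq_some_iff] at h
      obtain ⟨rfl, a, ha, rfl⟩ := h
      simp [toT_dec _ _ ha]
  poly_dec := by
    refine Poly.treeCases (h := fun _ l r => if r = T.nil then (dec l : Option α).map some
      else none) Poly.id (Poly.const _) ?_
    refine Poly.ite (Poly.decide_eq (Poly.snd (Poly.snd Poly.id)) (Poly.const _)) ?_
      (Poly.const _)
    exact Poly.optMap (f := fun _ a => some a) (poly_dec.comp (Poly.fst (Poly.snd Poly.id)))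
      (Poly.some (Poly.snd Poly.id))

instance : TDec (α ⊕ β) where
  dec t := match t with
    | T.nil => none
    | T.node l r => if l = T.nil then (dec r : Option α).map Sum.inl
        else if l = T.node T.nil T.nil then (dec r : Option β).map Sum.inr else none
  dec_toT o := by cases o <;> simp [dec_toT]
  toT_dec t o h := by
    cases t with
    | nil => simp at h
    | node l r =>
      simp only at h
      split_ifs at h with h1 h2
      · obtain ⟨a, ha, rfl⟩ := Option.map_eq_some_iff.1 h
        subst h1
        simp [toT_dec _ _ ha]
      · obtain ⟨a, ha, rfl⟩ := Option.map_eq_some_iff.1 h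
        subst h2
        simp [toT_dec _ _ ha]
  poly_dec := by
    refine Poly.treeCases (h := fun _ l r => if l = T.nil then (dec r : Option α).map Sum.inl
        else if l = T.node T.nil T.nil then (dec r : Option β).map Sum.inr else none) Poly.id
        (Poly.const _) ?_
    refine Poly.ite (Poly.decide_eq (Poly.fst (Poly.snd Poly.id)) (Poly.const _)) ?_
      (Poly.ite (Poly.decide_eq (Poly.fst (Poly.snd Poly.id)) (Poly.const _)) ?_ (Poly.const _))
    · exact Poly.optMap (f := fun _ a => (Sum.inl a : α ⊕ β))
        (poly_dec.comp (Poly.snd (Poly.snd Poly.id))) (Poly.inl (Poly.snd Poly.id))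
    · exact Poly.optMap (f := fun _ a => (Sum.inr a : α ⊕ β))
        (poly_dec.comp (Poly.snd (Poly.snd Poly.id))) (Poly.inr (Poly.snd Poly.id))

/-- one step of the decoding of a list -/
def decStep (α : Type) [TEnc α] [TDec α] (x : T) (acc : Option (List α)) : Option (List α) :=
  acc.bind fun l => (dec x : Option α).map fun a => a :: l

theorem foldr_decStep_toT (l : List α) : (l.map toT).foldr (decStep α) (some []) = some l := by
  induction l with
  | nil => rfl
  | cons a l ih => simp [ih, decStep, dec_toT]

theorem toT_foldr_decStep : ∀ (x : List T) (l : List α), x.foldr (decStep α) (some []) = some l →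
    l.map toT = x := by
  intro x
  induction x with
  | nil => intro l h; simp at h; subst h; rfl
  | cons t x ih =>
    intro l h
    simp only [List.foldr_cons, decStep, Option.bind_eq_some_iff, Option.map_eq_some_iff] at h
    obtain ⟨l', hl', a, ha, rfl⟩ := h
    simp [ih l' hl', toT_dec _ _ ha]

instance : TDec (List α) where
  dec t := t.toList.foldr (decStep α) (some [])
  dec_toT l := by
    change (T.ofList (l.map toT)).toList.foldr (decStep α) (some []) = some l
    rw [T.toList_ofList, foldr_decStep_toT]
  toT_dec t l h := by
    have := toT_foldr_decStep _ l h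
    change T.ofList (l.map toT) = t
    rw [this, T.ofList_toList]
  poly_dec := by
    refine Poly.foldr (F := fun _ => decStep α) (Poly.treeList Poly.id) (Poly.const _) ?_
      (Polynomial.X + 2) ?_
    · refine Poly.optBind (Poly.snd (Poly.snd Poly.id)) ?_
      refine Poly.optMap (poly_dec.comp (Poly.fst (Poly.snd (Poly.fst Poly.id)))) ?_
      exact Poly.cons (Poly.snd Poly.id) (Poly.snd (Poly.fst Poly.id))
    · intro t k _
      cases h : (t.toList.drop k).foldr (decStep α) (some []) with
      | none => simp
      | some l =>
        have h1 := toT_foldr_decStep _ l h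
        have h2 : sz l = sz (t.toList.drop k) := by
          unfold sz
          change (T.ofList (l.map toT)).size = (T.ofList ((t.toList.drop k).map (fun t => t))).size
          rw [h1, List.map_id']
        have h3 := Poly.sz_drop_le t.toList k
        have h4 : sz t.toList = sz t := by
          unfold sz; rw [toT_toList]; rfl
        simp only [sz_some, Polynomial.eval_add, Polynomial.eval_X, Polynomial.eval_ofNat]
        omega

end Inst

instance : TDec ℕ where
  dec t := (dec t : Option (List Bool)).bind fun l =>
    if (valB l).bits = l then some (valB l) else none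
  dec_toT n := by
    change ((dec (toT n.bits) : Option (List Bool)).bind fun l =>
      if (valB l).bits = l then some (valB l) else none) = some n
    rw [dec_toT, Option.bind_some, valB_bits, if_pos rfl]
  toT_dec t n h := by
    simp only [Option.bind_eq_some_iff, Option.ite_none_right_eq_some, Option.some.injEq] at h
    obtain ⟨l, hl, h1, rfl⟩ := h
    rw [toT_nat, h1]
    exact toT_dec _ _ hl
  poly_dec := by
    refine Poly.optBind (f := fun _ l => if (valB l).bits = l then some (valB l) else none)
      poly_dec ?_
    exact Poly.ite (Poly.decide_eq (Poly.natBits (Poly.valBits (Poly.snd Poly.id)))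
      (Poly.snd Poly.id)) (Poly.some (Poly.valBits (Poly.snd Poly.id))) (Poly.const _)

instance : TDec ℤ where
  dec t := (dec t : Option (Bool × ℕ)).bind fun p =>
    if p.1 = true then (if p.2 = 0 then none else some (-(p.2 : ℤ))) else some (p.2 : ℤ)
  dec_toT n := by
    change ((dec (toT (decide (n < 0), n.natAbs)) : Option (Bool × ℕ)).bind fun p =>
      if p.1 = true then (if p.2 = 0 then none else some (-(p.2 : ℤ))) else some (p.2 : ℤ)) = some n
    rw [dec_toT, Option.bind_some]
    simp only [decide_eq_true_eq]
    split_ifs with h1 h2
    · omega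
    · congr 1; omega
    · congr 1; omega
  toT_dec t n h := by
    simp only [Option.bind_eq_some_iff] at h
    obtain ⟨⟨b, m⟩, hl, h1⟩ := h
    have := toT_dec _ _ hl
    rw [← this]
    change toT (decide (n < 0), n.natAbs) = toT (b, m)
    simp only at h1
    cases b with
    | true =>
      simp only [if_true] at h1
      split_ifs at h1 with h2
      cases h1
      have e1 : decide (-(m : ℤ) < 0) = true := by
        rw [decide_eq_true_eq]; omega
      rw [e1, Int.natAbs_neg, Int.natAbs_natCast]
    | false =>
      simp only [Bool.false_eq_true, if_false, Option.some.injEq] at h1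
      subst h1
      have e1 : decide ((m : ℤ) < 0) = false := by
        rw [decide_eq_false_iff_not]; omega
      rw [e1, Int.natAbs_natCast]
  poly_dec := by
    have h1 : Poly (fun t : T => (dec t : Option (Bool × ℕ)).bind fun p =>
        if p.1 = true ∧ p.2 = 0 then none else some p) := by
      refine Poly.optBind (f := fun _ (p : Bool × ℕ) => if p.1 = true ∧ p.2 = 0 then none
        else some p) poly_dec ?_
      exact Poly.ite (Poly.decide_and (Poly.decide_eq (Poly.fst (Poly.snd Poly.id)) (Poly.const _))
        (Poly.decide_eq (Poly.snd (Poly.snd Poly.id)) (Poly.const _))) (Poly.const _)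
        (Poly.some (Poly.snd Poly.id))
    refine Poly.of_toT (h1.toT'.congr fun t => ?_)
    cases (dec t : Option (Bool × ℕ)) with
    | none => rfl
    | some p =>
      obtain ⟨b, m⟩ := p
      cases b with
      | true =>
        simp only [Option.bind_some, true_and, if_true]
        by_cases h2 : m = 0
        · simp [h2]
        · simp only [h2, if_false, toT_some]
          change T.node (toT (true, m)) T.nil =
            T.node (toT (decide (-(m : ℤ) < 0), (-(m : ℤ)).natAbs)) T.nil
          have e1 : decide (-(m : ℤ) < 0) = true := by
            rw [decide_eq_true_eq]; omega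
          rw [e1, Int.natAbs_neg, Int.natAbs_natCast]
      | false =>
        simp only [Option.bind_some, Bool.false_eq_true, false_and, if_false, toT_some]
        change T.node (toT (false, m)) T.nil =
            T.node (toT (decide ((m : ℤ) < 0), ((m : ℤ)).natAbs)) T.nil
        have e1 : decide ((m : ℤ) < 0) = false := by
          rw [decide_eq_false_iff_not]; omega
        rw [e1, Int.natAbs_natCast]

/-- Transport of decodability: `α` is coded through an injection `f` into a decodable type, whose
range is recognised by `g`. -/
@[instance_reducible] def TDec.of {α β : Type} [TEnc α] [TEnc β] [TDec β] (f : α → β)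
    (g : β → Option α) (hf : ∀ a, toT a = toT (f a)) (hg : ∀ a, g (f a) = some a)
    (hg' : ∀ b a, g b = some a → f a = b) (hp : Poly g) : TDec α where
  dec t := (dec t : Option β).bind g
  dec_toT a := by rw [hf, dec_toT, Option.bind_some, hg]
  toT_dec t a h := by
    obtain ⟨b, hb, h1⟩ := Option.bind_eq_some_iff.1 h
    rw [hf, hg' b a h1, toT_dec _ _ hb]
  poly_dec := Poly.optBind (f := fun _ b => g b) poly_dec (hp.comp (Poly.snd Poly.id))

/-! ### Parsing raw bit strings -/

/-- one step of the parser, reading the bit string from right to left -/
def pstep (b : Bool) (s : Option (List T)) : Option (List T) :=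
  match s with
  | none => none
  | some l => if b then (match l with
      | x :: l' => (match l' with
        | y :: l'' => some (T.node x y :: l'')
        | [] => none)
      | [] => none) else some (T.nil :: l)

/-- the parser: the tree with a given preorder code -/
def parse (x : List Bool) : Option T :=
  match x.foldr pstep (some []) with
  | none => none
  | some l => match l with
    | [] => none
    | t :: l' => if l' = [] then some t else none

theorem foldr_pstep_enc : ∀ (t : T) (l : List T), t.enc.foldr pstep (some l) = some (t :: l)
  | T.nil, l => rfl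
  | T.node a b, l => by
    simp only [T.enc, List.foldr_cons, List.foldr_append, foldr_pstep_enc b l,
      foldr_pstep_enc a (b :: l)]
    rfl

theorem foldr_pstep_some : ∀ (x : List Bool) (l : List T), x.foldr pstep (some []) = some l →
    x = l.flatMap T.enc := by
  intro x
  induction x with
  | nil => intro l h; simp at h; subst h; rfl
  | cons b x ih =>
    intro l h
    rw [List.foldr_cons] at h
    cases hx : x.foldr pstep (some []) with
    | none => rw [hx] at h; simp [pstep] at h
    | some l' =>
      rw [hx] at h
      have ih' := ih l' hx
      cases b with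
      | false =>
        simp only [pstep, Bool.false_eq_true, if_false, Option.some.injEq] at h
        subst h
        simp [ih', T.enc]
      | true =>
        match l', h, ih' with
        | [], h, _ => simp [pstep] at h
        | [_], h, _ => simp [pstep] at h
        | a :: b :: l'', h, ih' =>
          simp only [pstep, if_true, Option.some.injEq] at h
          subst h
          simp [ih', T.enc]

theorem parse_enc (t : T) : parse t.enc = some t := by
  simp [parse, foldr_pstep_enc]

theorem enc_of_parse {x : List Bool} {t : T} (h : parse x = some t) : t.enc = x := by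
  unfold parse at h
  cases hx : x.foldr pstep (some []) with
  | none => rw [hx] at h; simp at h
  | some l =>
    rw [hx] at h
    match l, h with
    | [], h => simp at h
    | a :: l', h =>
      simp only [Option.ite_none_right_eq_some, Option.some.injEq] at h
      obtain ⟨rfl, rfl⟩ := h
      have := foldr_pstep_some x _ hx
      simp [this]

theorem sz_flatMap_enc (l : List T) : sz l ≤ 2 * (l.flatMap T.enc).length + 1 := by
  induction l with
  | nil => simp
  | cons t l ih =>
    have h1 : sz t = t.enc.length := rfl
    have h2 := T.size_pos t
    have h3 : t.size = t.enc.length := rfl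
    simp only [sz_list_cons, List.flatMap_cons, List.length_append]
    omega

theorem poly_parse : Poly parse := by
  have hstep : Poly (fun p : List Bool × Bool × Option (List T) => pstep p.2.1 p.2.2) := by
    refine (Poly.optCases (o := fun p : List Bool × Bool × Option (List T) => p.2.2)
      (g := fun _ => (none : Option (List T))) (h := fun p l => if p.2.1 = true then (match l with
        | x :: l' => (match l' with
          | y :: l'' => some (T.node x y :: l'')
          | [] => none)
        | [] => none) else some (T.nil :: l)) (Poly.snd (Poly.snd Poly.id)) (Poly.const _)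
        ?_).congr (by rintro ⟨_, b, _ | l⟩ <;> rfl)
    refine Poly.ite (Poly.decide_eq (Poly.fst (Poly.snd (Poly.fst Poly.id))) (Poly.const _)) ?_ ?_
    · refine (Poly.listCases (l := fun p : (List Bool × Bool × Option (List T)) × List T => p.2)
        (g := fun _ => (none : Option (List T))) (h := fun _ x l' => (match l' with
          | y :: l'' => some (T.node x y :: l'')
          | [] => none)) (Poly.snd Poly.id) (Poly.const _) ?_).congr ?_
      · refine (Poly.listCases
          (l := fun p : ((List Bool × Bool × Option (List T)) × List T) × T × List T => p.2.2)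
          (g := fun _ => (none : Option (List T)))
          (h := fun p y l'' => some (T.node p.2.1 y :: l'')) (Poly.snd (Poly.snd Poly.id))
          (Poly.const _) ?_).congr ?_
        · exact Poly.some (Poly.cons (Poly.node (Poly.fst (Poly.snd (Poly.fst Poly.id)))
            (Poly.fst (Poly.snd Poly.id))) (Poly.snd (Poly.snd Poly.id)))
        · rintro ⟨_, x, l⟩
          cases l <;> rfl
      · rintro ⟨_, l⟩
        cases l <;> rfl
    · exact Poly.some (Poly.cons (Poly.const _) (Poly.snd Poly.id))
  have hfold : Poly (fun x : List Bool => x.foldr pstep (some [])) := by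
    refine Poly.foldr (F := fun _ => pstep) Poly.id (Poly.const _) hstep
      (Polynomial.C 2 * Polynomial.X + 3) ?_
    intro x k _
    cases h : (x.drop k).foldr pstep (some []) with
    | none => simp
    | some l =>
      have h1 := foldr_pstep_some _ l h
      have h2 := sz_flatMap_enc l
      rw [← h1] at h2
      have h3 := length_lt_sz x
      have h4 : (x.drop k).length ≤ x.length := by simp
      simp only [sz_some, Polynomial.eval_add, Polynomial.eval_mul, Polynomial.eval_C,
        Polynomial.eval_X, Polynomial.eval_ofNat]
      omega
  refine (Poly.optCases (g := fun _ => (none : Option T)) (h := fun _ l => match l with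
    | [] => none
    | t :: l' => if l' = [] then some t else none) hfold (Poly.const _) ?_).congr
    (fun x => by unfold parse; cases x.foldr pstep (some []) <;> rfl)
  refine (Poly.listCases (l := fun p : List Bool × List T => p.2)
    (g := fun _ => (none : Option T)) (h := fun _ t l' => if l' = [] then some t else none)
    (Poly.snd Poly.id) (Poly.const _) ?_).congr ?_
  · exact Poly.ite (Poly.decide_eq (Poly.snd (Poly.snd Poly.id)) (Poly.const _))
      (Poly.some (Poly.fst (Poly.snd Poly.id))) (Poly.const _)
  · rintro ⟨_, l⟩
    cases l <;> rfl

/-- The decoder from raw bit strings. -/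
def unbits (α : Type) [TEnc α] [TDec α] (x : List Bool) : Option α := (parse x).bind dec

theorem unbits_bits {α : Type} [TEnc α] [TDec α] (a : α) : unbits α (bits a) = some a := by
  unfold unbits bits
  rw [parse_enc, Option.bind_some, dec_toT]

theorem bits_of_unbits {α : Type} [TEnc α] [TDec α] {x : List Bool} {a : α}
    (h : unbits α x = some a) : bits a = x := by
  obtain ⟨t, ht, h1⟩ := Option.bind_eq_some_iff.1 h
  unfold bits
  rw [toT_dec _ _ h1, enc_of_parse ht]

theorem poly_unbits {α : Type} [TEnc α] [TDec α] : Poly (unbits α) :=
  Poly.optBind (f := fun _ t => dec t) poly_parse (poly_dec.comp (Poly.snd Poly.id))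

theorem mem_lang_iff {α : Type} [TEnc α] [TDec α] {P : α → Prop} {x : List Bool} :
    x ∈ lang P ↔ ∃ a, unbits α x = some a ∧ P a := by
  constructor
  · rintro ⟨a, rfl, h⟩; exact ⟨a, unbits_bits a, h⟩
  · rintro ⟨a, h, h1⟩; exact ⟨a, bits_of_unbits h, h1⟩

theorem bits_mem_lang {α : Type} [TEnc α] {P : α → Prop} {a : α} : bits a ∈ lang P ↔ P a := by
  constructor
  · rintro ⟨b, h, h1⟩; rwa [← bits_injective h]
  · intro h; exact ⟨a, rfl, h⟩

/-! ### Raw output -/

/-- From the code of a boolean to the raw one-letter string. -/
theorem PC.rawBool : PC (bits : Bool → List Bool) (fun x : List Bool => x) (fun b => [b]) := by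
  refine ⟨Cmd.cases 0 Cmd.skip Cmd.skip (Cmd.seq (Cmd.pop 0) (Cmd.seq (Cmd.pop 0)
    (Cmd.seq (Cmd.pop 0) (Cmd.push 0 true)))), 10, fun b => ?_⟩
  rw [inp_eq_st, inp_eq_st]
  cases b with
  | false => exact (Runs.casesFalse (l := []) rfl (Runs.skip _)).mono (by simp)
  | true =>
    refine (Runs.casesTrue (l := [false, false]) rfl ((Runs.pop _ 0).seq ((Runs.pop _ 0).seq
      ((Runs.pop _ 0).seq (Runs.push _ 0 true))))).conv rfl ?_ ?_
    · simp [bits, T.enc]
    · simp

/-- From raw bit strings to encoded lists of booleans. -/
theorem PC.rawIn : PC (fun x : List Bool => x) (bits : List Bool → List Bool) (fun x => x) :=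
  PC.ofBits

/-- A polynomial-time function followed by a polynomial-time test is polynomial-time. -/
theorem polyTime_test {F : List Bool → List Bool} {g : List Bool → Bool} (hF : PolyTime F)
    (hg : Poly g) : PolyTime (fun x => [g (F x)]) := by
  have h1 : PC (fun x : List Bool => x) (fun x : List Bool => x) F :=
    H642R2.TMSim.polyTime_toPC hF
  have h2 : PC (fun x : List Bool => x) (bits : List Bool → List Bool) F :=
    PC.comp (g := fun x => x) (f := F) PC.rawIn h1
  have h3 : PC (fun x : List Bool => x) (bits : Bool → List Bool) (fun x => g (F x)) :=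
    PC.comp (g := g) (f := F) hg h2
  exact PC.toPolyTime (PC.comp (g := fun b => [b]) (f := fun x => g (F x)) PC.rawBool h3)

theorem polyTime_id : PolyTime (fun x => x) := PC.toPolyTime PC.id

/-- A polynomial-time test of bit strings. -/
theorem polyTime_of_poly {g : List Bool → Bool} (hg : Poly g) : PolyTime (fun x => [g x]) :=
  polyTime_test polyTime_id hg

/-- A typed polynomial-time function, with values coded as bit strings. -/
theorem polyTime_bits {β : Type} [TEnc β] {g : List Bool → β} (hg : Poly g) :
    PolyTime (fun x => bits (g x)) := by
  obtain ⟨c, p, h⟩ := PC.comp (g := g) (f := fun x => x) hg PC.rawIn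
  exact PC.toPolyTime ⟨c, p, h⟩

/-! ### Splitting pairs of bit strings -/

/-- one step of the splitting -/
def ustep (s : List Bool × List Bool × Bool) : List Bool × List Bool × Bool :=
  if s.2.2 = true then s else
    match s.2.1 with
    | [] => s
    | b :: l => if b = true then (match l with
        | [] => s
        | c :: l' => (c :: s.1, l', false)) else (s.1, l, true)

theorem ustep_iterate : ∀ (x w acc : List Bool) (k : ℕ), x.length < k →
    ustep^[k] (acc, pairBits x w, false) = (x.reverse ++ acc, w, true) := by
  intro x
  induction x with
  | nil =>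
    intro w acc k hk
    obtain ⟨k, rfl⟩ : ∃ k', k = k' + 1 := ⟨k - 1, by simp at hk; omega⟩
    rw [Function.iterate_succ_apply]
    have h1 : ustep (acc, pairBits [] w, false) = (acc, w, true) := by
      simp [ustep, pairBits]
    rw [h1]
    have h2 : ∀ k, ustep^[k] (acc, w, true) = (acc, w, true) := by
      intro k
      induction k with
      | zero => rfl
      | succ k ih => rw [Function.iterate_succ_apply]; simpa [ustep] using ih
    simp [h2]
  | cons b x ih =>
    intro w acc k hk
    obtain ⟨k, rfl⟩ : ∃ k', k = k' + 1 := ⟨k - 1, by simp at hk; omega⟩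
    rw [Function.iterate_succ_apply]
    have h1 : ustep (acc, pairBits (b :: x) w, false) = (b :: acc, pairBits x w, false) := by
      simp [ustep, pairBits]
    rw [h1, ih w (b :: acc) k (by simp at hk; omega)]
    simp

/-- the two components of a pair of bit strings -/
def unpair (y : List Bool) : List Bool × List Bool :=
  ((ustep^[y.length] ([], y, false)).1.reverse, (ustep^[y.length] ([], y, false)).2.1)

theorem unpair_pairBits (x w : List Bool) : unpair (pairBits x w) = (x, w) := by
  have h : x.length < (pairBits x w).length := by
    simp [pairBits]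
    omega
  unfold unpair
  rw [ustep_iterate x w [] _ h]
  simp

theorem sz_ustep (s : List Bool × List Bool × Bool) : sz (ustep s) ≤ sz s + 2 := by
  obtain ⟨a, l, b⟩ := s
  unfold ustep
  cases b with
  | true => simp
  | false =>
    match l with
    | [] => simp
    | true :: [] => simp
    | true :: c :: l' => simp; omega
    | false :: l' => simp; omega

theorem poly_unpair : Poly unpair := by
  have hstep : Poly ustep := by
    unfold ustep
    refine Poly.ite (Poly.decide_eq (Poly.snd (Poly.snd Poly.id)) (Poly.const _)) Poly.id ?_
    refine (Poly.listCases (l := fun s : List Bool × List Bool × Bool => s.2.1)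
      (g := fun s => s) (h := fun s b l => if b = true then (match l with
        | [] => s
        | c :: l' => (c :: s.1, l', false)) else (s.1, l, true)) (Poly.fst (Poly.snd Poly.id))
      Poly.id ?_).congr ?_
    · refine Poly.ite (Poly.decide_eq (Poly.fst (Poly.snd Poly.id)) (Poly.const _)) ?_ ?_
      · refine (Poly.listCases
          (l := fun p : (List Bool × List Bool × Bool) × Bool × List Bool => p.2.2)
          (g := fun p => p.1) (h := fun p c l' => (c :: p.1.1, l', false))
          (Poly.snd (Poly.snd Poly.id)) (Poly.fst Poly.id) ?_).congr ?_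
        · exact Poly.pair (Poly.cons (Poly.fst (Poly.snd Poly.id))
            (Poly.fst (Poly.fst (Poly.fst Poly.id)))) (Poly.pair (Poly.snd (Poly.snd Poly.id))
            (Poly.const _))
        · rintro ⟨s, b, l⟩
          cases l <;> rfl
      · exact Poly.pair (Poly.fst (Poly.fst Poly.id)) (Poly.pair (Poly.snd (Poly.snd Poly.id))
          (Poly.const _))
    · rintro ⟨a, l, b⟩
      cases l <;> rfl
  have hiter : Poly (fun y : List Bool => ustep^[y.length] ([], y, false)) := by
    refine Poly.iterLen (F := fun _ => ustep) (s := fun y : List Bool => ([], y, false)) Poly.id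
      (Poly.pair (Poly.const _) (Poly.pair Poly.id (Poly.const _)))
      (hstep.comp (Poly.snd Poly.id)) (Polynomial.C 3 * Polynomial.X + 5) ?_
    intro y k hk
    have h1 : ∀ k (s : List Bool × List Bool × Bool), sz (ustep^[k] s) ≤ sz s + 2 * k := by
      intro k
      induction k with
      | zero => intro s; simp
      | succ k ih =>
        intro s
        rw [Function.iterate_succ_apply]
        have h2 := ih (ustep s)
        have h3 := sz_ustep s
        omega
    have h2 := h1 k ([], y, false)
    have h3 := length_lt_sz y
    simp only [sz_pair, sz_list_nil, sz_false] at h2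
    simp only [Polynomial.eval_add, Polynomial.eval_mul, Polynomial.eval_C, Polynomial.eval_X,
      Polynomial.eval_ofNat]
    omega
  exact Poly.pair (Poly.reverse (Poly.fst hiter)) (Poly.fst (Poly.snd hiter))

/-! ### Complexity classes -/

theorem Reduces.trans {L L' L'' : Set (List Bool)} (h : Reduces L L') (h' : Reduces L' L'') :
    Reduces L L'' := by
  obtain ⟨f, hf, hf'⟩ := h
  obtain ⟨g, hg, hg'⟩ := h'
  exact ⟨fun x => g (f x), H642R2.TMSim.polyTime_comp hg hf, fun x => (hf' x).trans (hg' _)⟩

theorem InP.of_reduces {L L' : Set (List Bool)} (h : Reduces L L') (h' : InP L') : InP L := by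
  obtain ⟨f, hf, hf'⟩ := h
  obtain ⟨V, hV, hV'⟩ := h'
  exact ⟨fun x => V (f x), H642R2.TMSim.polyTime_comp hV hf, fun x => (hf' x).trans (hV' _)⟩

/-- A decision problem about decodable data that is decided by a polynomial-time function on the
data is in `P`. -/
theorem inPP_of {α : Type} [TEnc α] [TDec α] {P : α → Prop} {d : α → Bool} (hd : Poly d)
    (h : ∀ a, P a ↔ d a = true) : InPP P := by
  refine ⟨fun x => [match unbits α x with | none => false | some a => d a], ?_, fun x => ?_⟩
  · exact polyTime_of_poly (Poly.optCases (h := fun _ a => d a) poly_unbits (Poly.const _)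
      (hd.comp (Poly.snd Poly.id)))
  · rw [mem_lang_iff]
    cases hx : unbits α x with
    | none => simp [hx]
    | some a => simp [hx, h a]

/-- Two-component raw decision. -/
theorem polyTime_pairTest {α β : Type} [TEnc α] [TEnc β] [TDec α] [TDec β] {R : α × β → Bool}
    (hR : Poly R) : PolyTime (fun y => [match unbits α (unpair y).1 with
      | none => false
      | some a => match unbits β (unpair y).2 with
        | none => false
        | some b => R (a, b)]) := by
  refine polyTime_of_poly (Poly.optCases (g := fun _ => false)
    (h := fun y a => match unbits β (unpair y).2 with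
        | none => false
        | some b => R (a, b)) (poly_unbits.comp (Poly.fst poly_unpair)) (Poly.const _) ?_)
  exact Poly.optCases (o := fun p : List Bool × α => unbits β (unpair p.1).2)
    (g := fun _ => false) (h := fun p b => R (p.2, b))
    (poly_unbits.comp (Poly.snd (poly_unpair.comp (Poly.fst Poly.id)))) (Poly.const _)
    (hR.comp (Poly.pair (Poly.snd (Poly.fst Poly.id)) (Poly.snd Poly.id)))

/-- A decision problem about decodable data with polynomially bounded, polynomial-time verifiable
decodable certificates is in `NP`. -/
theorem inNPP_of {α β : Type} [TEnc α] [TEnc β] [TDec α] [TDec β] {P : α → Prop}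
    {R : α × β → Bool} (hR : Poly R) (p : Polynomial ℕ)
    (h : ∀ a, P a ↔ ∃ w : β, sz w ≤ p.eval (sz a) ∧ R (a, w) = true) : InNPP P := by
  refine ⟨_, p, polyTime_pairTest hR, fun x => ?_⟩
  rw [mem_lang_iff]
  constructor
  · rintro ⟨a, ha, hPa⟩
    obtain ⟨w, hw, hRw⟩ := (h a).1 hPa
    have hx := bits_of_unbits ha
    refine ⟨bits w, ?_, ?_⟩
    · rw [bits_length, ← hx, bits_length]; exact hw
    · simp only [unpair_pairBits, ha, unbits_bits, hRw]
  · rintro ⟨y, hy, hV⟩
    simp only [unpair_pairBits] at hV
    cases hx : unbits α x with
    | none => rw [hx] at hV; simp at hV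
    | some a =>
      rw [hx] at hV
      cases hy' : unbits β y with
      | none => rw [hy'] at hV; simp at hV
      | some b =>
        rw [hy'] at hV
        simp only [List.cons.injEq, and_true] at hV
        refine ⟨a, rfl, (h a).2 ⟨b, ?_, hV⟩⟩
        have e1 := bits_of_unbits hx
        have e2 := bits_of_unbits hy'
        rw [← bits_length b, e2, ← bits_length a, e1]
        exact hy

/-- The complement of a decision problem about decodable data is in `coNP` if the problem is in
`NP`. -/
theorem inCoNPP_of {α β : Type} [TEnc α] [TEnc β] [TDec α] [TDec β] {P : α → Prop}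
    {R : α × β → Bool} (hR : Poly R) (p : Polynomial ℕ)
    (h : ∀ a, ¬ P a ↔ ∃ w : β, sz w ≤ p.eval (sz a) ∧ R (a, w) = true) : InCoNPP P := by
  have hV : PolyTime (fun y => [match unbits α (unpair y).1 with
      | none => true
      | some a => match unbits β (unpair y).2 with
        | none => false
        | some b => R (a, b)]) := by
    refine polyTime_of_poly (Poly.optCases (g := fun _ => true)
      (h := fun y a => match unbits β (unpair y).2 with
          | none => false
          | some b => R (a, b)) (poly_unbits.comp (Poly.fst poly_unpair)) (Poly.const _) ?_)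
    exact Poly.optCases (o := fun p : List Bool × α => unbits β (unpair p.1).2)
      (g := fun _ => false) (h := fun p b => R (p.2, b))
      (poly_unbits.comp (Poly.snd (poly_unpair.comp (Poly.fst Poly.id)))) (Poly.const _)
      (hR.comp (Poly.pair (Poly.snd (Poly.fst Poly.id)) (Poly.snd Poly.id)))
  refine ⟨_, p, hV, fun x => ?_⟩
  rw [Set.mem_compl_iff, mem_lang_iff]
  cases hx : unbits α x with
  | none =>
    simp only [reduceCtorEq, false_and, exists_false, not_false_eq_true, true_iff]
    exact ⟨[], by simp, by simp [unpair_pairBits, hx]⟩
  | some a =>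
    simp only [Option.some.injEq, exists_eq_left']
    rw [h a]
    have e1 := bits_of_unbits hx
    constructor
    · rintro ⟨w, hw, hRw⟩
      refine ⟨bits w, ?_, ?_⟩
      · rw [bits_length, ← e1, bits_length]; exact hw
      · simp only [unpair_pairBits, hx, unbits_bits, hRw]
    · rintro ⟨y, hy, hV⟩
      simp only [unpair_pairBits, hx] at hV
      cases hy' : unbits β y with
      | none => rw [hy'] at hV; simp at hV
      | some b =>
        rw [hy'] at hV
        simp only [List.cons.injEq, and_true] at hV
        refine ⟨b, ?_, hV⟩
        have e2 := bits_of_unbits hy'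
        rw [← bits_length b, e2, ← bits_length a, e1]
        exact hy

/-- `P ⊆ NP`. -/
theorem InP.inNP {L : Set (List Bool)} (h : InP L) : InNP L := by
  obtain ⟨V, hV, hV'⟩ := h
  have h1 : PC (fun x : List Bool => x) (fun x : List Bool => x) V :=
    H642R2.TMSim.polyTime_toPC hV
  -- from raw pair to raw first component
  have h2 : PC (bits : List Bool → List Bool) (fun x : List Bool => x) (fun x => x) := by
    refine ⟨Cmd.seq (Cmd.loop 0 (Cmd.cases 0 Cmd.skip (Cmd.pop 0)
      (Cmd.seq (Cmd.pop 0) (Cmd.cases 0 Cmd.skip
        (Cmd.seq (Cmd.pop 0) (Cmd.push 1 false))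
        (Cmd.seq (Cmd.pop 0) (Cmd.seq (Cmd.pop 0) (Cmd.seq (Cmd.pop 0) (Cmd.push 1 true))))))))
      (mv 1 0), Polynomial.C 20 * Polynomial.X + Polynomial.C 20, fun x => ?_⟩
    rw [inp_eq_st, inp_eq_st]
    have key : ∀ x acc : List Bool, Runs (Cmd.loop 0 (Cmd.cases 0 Cmd.skip (Cmd.pop 0)
      (Cmd.seq (Cmd.pop 0) (Cmd.cases 0 Cmd.skip
        (Cmd.seq (Cmd.pop 0) (Cmd.push 1 false))
        (Cmd.seq (Cmd.pop 0) (Cmd.seq (Cmd.pop 0) (Cmd.seq (Cmd.pop 0) (Cmd.push 1 true))))))))
        (st (bits x) acc []) (st [] (x.reverse ++ acc) []) (10 * x.length + 10) := by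
      intro x
      induction x with
      | nil =>
        intro acc
        refine (Runs.loopCons (by simp [bits, T.enc]) (Runs.casesFalse (l := []) rfl
          (Runs.pop _ 0)) (Runs.loopNil (by simp [bits, T.enc]))).conv rfl ?_ (by simp)
        simp [bits, T.enc]
      | cons b x ih =>
        intro acc
        have ih' := ih (b :: acc)
        have hb : Runs (Cmd.cases 0 Cmd.skip (Cmd.pop 0)
          (Cmd.seq (Cmd.pop 0) (Cmd.cases 0 Cmd.skip
          (Cmd.seq (Cmd.pop 0) (Cmd.push 1 false))
          (Cmd.seq (Cmd.pop 0) (Cmd.seq (Cmd.pop 0) (Cmd.seq (Cmd.pop 0) (Cmd.push 1 true)))))))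
          (st (bits (b :: x)) acc []) (st (bits x) (b :: acc) []) 7 := by
          cases b with
          | false =>
            refine (Runs.casesTrue (l := false :: bits x) rfl ((Runs.pop _ 0).seq
              (Runs.casesFalse (l := bits x) (by simp [bits, T.enc]) ((Runs.pop _ 0).seq
              (Runs.push _ 1 false))))).conv rfl ?_ (by simp)
            simp [bits, T.enc]
          | true =>
            refine (Runs.casesTrue (l := true :: false :: false :: bits x) rfl ((Runs.pop _ 0).seq
              (Runs.casesTrue (l := false :: false :: bits x) (by simp [bits, T.enc])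
                ((Runs.pop _ 0).seq ((Runs.pop _ 0).seq ((Runs.pop _ 0).seq
                (Runs.push _ 1 true))))))).conv rfl ?_ (by simp)
            simp [bits, T.enc]
        refine (Runs.loopCons (by simp [bits, T.enc]) hb ih').conv rfl ?_ ?_
        · simp
        · simp; omega
    have h3 := key x []
    rw [List.append_nil] at h3
    refine (h3.seq (mv_runs (i := 1) (j := 0) (by decide) x.reverse _ (st x [] []) rfl
      (by simp))).mono ?_
    have h4 := sz_listBool_ge x
    rw [← bits_length] at h4
    simp only [List.length_reverse, Polynomial.eval_add, Polynomial.eval_mul, Polynomial.eval_C,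
      Polynomial.eval_X]
    omega
  have h3 : PolyTime (fun y => V (unpair y).1) :=
    PC.toPolyTime (PC.comp (g := V) (f := fun y => (unpair y).1) h1
      (PC.comp (g := fun x => x) (f := fun y => (unpair y).1) h2
      (PC.comp (g := fun y => (unpair y).1) (f := fun x => x) (Poly.fst poly_unpair) PC.rawIn)))
  refine ⟨_, 0, h3, fun x => ?_⟩
  rw [hV' x]
  constructor
  · intro h; exact ⟨[], by simp, by simpa [unpair_pairBits] using h⟩
  · rintro ⟨w, _, h⟩; simpa [unpair_pairBits] using h

/-- Hardness passes along reductions. -/
theorem NPHard.of_reduces {L L' : Set (List Bool)} (h : NPHard L) (h' : Reduces L L') :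
    NPHard L' := fun _ hL => (h _ hL).trans h'

/-- If an `NP`-hard language is in `P` then all of `NP` is in `P`. -/
theorem NPHard.collapse {L : Set (List Bool)} (h : NPHard L) (h' : InP L) :
    ∀ L', InNP L' → InP L' := fun _ hL => InP.of_reduces (h _ hL) h'

/-- The raw output of a partially defined polynomial-time function: the empty string (which codes
nothing) where it is undefined. -/
theorem polyTime_opt {β : Type} [TEnc β] {g : List Bool → Option β} (hg : Poly g) :
    PolyTime (fun x => match g x with | none => [] | some b => bits b) := by
  have h1 : PC (fun x : List Bool => x) T.enc (fun x => toT (g x)) := by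
    obtain ⟨c, p, h⟩ := PC.comp (g := g) (f := fun x => x) hg PC.rawIn
    exact ⟨c, p, h⟩
  have h2 : PC (fun x : List Bool => x) T.enc (fun x => (toT (g x)).hd) :=
    PC.comp (g := T.hd) (f := fun x => toT (g x)) PT.hd h1
  have h3 : PC (fun x : List Bool => x) (fun x : List Bool => x) (fun x => (toT (g x)).hd.enc) := by
    obtain ⟨c, p, h⟩ := h2
    exact ⟨c, p, h⟩
  have h4 := PC.ite (g := fun _ : List Bool => ([] : List Bool)) h1 (PC.const _) h3
  refine PC.toPolyTime (PC.congr h4 fun x => ?_)
  cases g x with
  | none => simp
  | some b => simp [bits]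

theorem nil_notMem_lang {α : Type} [TEnc α] {P : α → Prop} : [] ∉ lang P := by
  rintro ⟨a, h, _⟩
  exact T.enc_ne_nil _ h

/-- A polynomial-time reduction on decodable data gives a reduction of the languages. -/
theorem reduces_lang {α β : Type} [TEnc α] [TEnc β] [TDec α] {P : α → Prop} {Q : β → Prop}
    {f : α → β} (hf : Poly f) (h : ∀ a, P a ↔ Q (f a)) : Reduces (lang P) (lang Q) := by
  refine ⟨_, polyTime_opt (Poly.optMap (o := unbits α) (f := fun _ a => f a) poly_unbits
    (hf.comp (Poly.snd Poly.id))), fun x => ?_⟩
  rw [mem_lang_iff]
  cases hx : unbits α x with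
  | none => simp [nil_notMem_lang]
  | some a => simp [bits_mem_lang, h a]

/-- Hardness of decision problems passes along polynomial-time reductions. -/
theorem NPHardP.of_poly {α β : Type} [TEnc α] [TEnc β] [TDec α] {P : α → Prop} {Q : β → Prop}
    (hP : NPHardP P) {f : α → β} (hf : Poly f) (h : ∀ a, P a ↔ Q (f a)) : NPHardP Q :=
  NPHard.of_reduces hP (reduces_lang hf h)

/-- Membership in `P` passes backwards along polynomial-time reductions. -/
theorem InPP.of_poly {α β : Type} [TEnc α] [TEnc β] [TDec α] {P : α → Prop} {Q : β → Prop}
    (hQ : InPP Q) {f : α → β} (hf : Poly f) (h : ∀ a, P a ↔ Q (f a)) : InPP P :=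
  InP.of_reduces (reduces_lang hf h) hQ

/-- Membership in `P` of a decision problem gives a polynomial-time test of raw strings. -/
theorem InPP.exists_test {α : Type} [TEnc α] {P : α → Prop} (h : InPP P) :
    ∃ V : List Bool → List Bool, PolyTime V ∧ ∀ a, P a ↔ V (bits a) = [true] := by
  obtain ⟨V, hV, hV'⟩ := h
  exact ⟨V, hV, fun a => by rw [← hV', bits_mem_lang]⟩

/-- Internal hardness gives hardness of the complement for `coNP`. -/
theorem HardI.toCoNPHardP_not {α : Type} [TEnc α] {P : α → Prop} (hP : HardI P) :
    CoNPHardP (fun a => ¬ P a) := by
  intro L hL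
  obtain ⟨f, hf, hfL⟩ := hP _ hL
  refine ⟨fun x => bits (f x), PC.toPolyTime hf, fun x => ?_⟩
  rw [bits_mem_lang, ← hfL x, Set.mem_compl_iff, not_not]

/-- If the complement of a problem is `NP`-hard (through programs), the problem is `coNP`-hard. -/
theorem HardI.toCoNPHardP {α : Type} [TEnc α] {P : α → Prop} (hP : HardI (fun a => ¬ P a)) :
    CoNPHardP P := by
  have := hP.toCoNPHardP_not
  simpa only [not_not] using this

/-- Like `HardPr`, but for the complement. -/
theorem HardPr.toCoNPHardP {α : Type} [TEnc α] {Pr P : α → Prop}
    (hP : HardPr Pr (fun a => ¬ P a)) : CoNPHardP P :=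
  hP.toHardI.toCoNPHardP

/-- An `NP`-hard problem about decodable data with decision function computable in polynomial time
collapses `NP` to `P`. -/
theorem NPHardP.collapse {α : Type} [TEnc α] [TDec α] {P : α → Prop} (hP : NPHardP P)
    {d : α → Bool} (hd : Poly d) (h : ∀ a, P a ↔ d a = true) : ∀ L, InNP L → InP L :=
  NPHard.collapse hP (inPP_of hd h)

/-- An internally hard problem with decision function computable in polynomial time collapses
`NP` to `P`. -/
theorem HardI.collapse {α : Type} [TEnc α] {P : α → Prop} (hP : HardI P)
    {d : α → Bool} (hd : Poly d) (h : ∀ a, P a ↔ d a = true) : ∀ L, InNP L → InP L := by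
  intro L hL
  obtain ⟨f, hf, hfL⟩ := hP L hL
  have h1 : PC (fun x : List Bool => x) (bits : Bool → List Bool) (fun x => d (f x)) :=
    PC.comp (g := d) (f := f) hd hf
  refine ⟨fun x => [d (f x)], PC.toPolyTime (PC.comp (g := fun b => [b]) (f := fun x => d (f x))
    PC.rawBool h1), fun x => ?_⟩
  rw [hfL x, h]
  simp

/-- A promise-hard problem with decision function computable in polynomial time and correct on
the promise collapses `NP` to `P`. -/
theorem HardPr.collapse {α : Type} [TEnc α] {Pr P : α → Prop} (hP : HardPr Pr P)
    {d : α → Bool} (hd : Poly d) (h : ∀ a, Pr a → (P a ↔ d a = true)) :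
    ∀ L, InNP L → InP L := by
  intro L hL
  obtain ⟨f, hf, hpr, hfL⟩ := hP L hL
  have h1 : PC (fun x : List Bool => x) (bits : Bool → List Bool) (fun x => d (f x)) :=
    PC.comp (g := d) (f := f) hd hf
  refine ⟨fun x => [d (f x)], PC.toPolyTime (PC.comp (g := fun b => [b]) (f := fun x => d (f x))
    PC.rawBool h1), fun x => ?_⟩
  rw [hfL x, h _ (hpr x)]
  simp

end Pool.Agent.NPC
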